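import Pool.Agent.Lib.MP_3e612f_nt.LO.BrunC

/-! The Brun-Hooley sieve (fundamental lemma), final form with weights on the integers, and corollaries. -/

set_option autoImplicit false

namespace Pool.Agent.LO

open Finset

private noncomputable def invHom : ℕ →* ℝ where
  toFun n := ((n : ℝ))⁻¹
  map_one' := by simp
  map_mul' m n := by push_cast; rw [mul_inv]

theorem Vz_pos (z : ℕ) : 0 < Vz z := by
  unfold Vz
  refine Finset.prod_pos fun p hp => ?_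
  rw [mem_pz] at hp
  have h2 : (2 : ℝ) ≤ p := by exact_mod_cast hp.1.two_le
  rw [sub_pos, div_lt_one (by linarith)]
  linarith

theorem Vz_le_one (z : ℕ) : Vz z ≤ 1 := by
  unfold Vz
  refine Finset.prod_le_one (fun p hp => ?_) fun p _ => ?_
  · rw [mem_pz] at hp
    have h2 : (2 : ℝ) ≤ p := by exact_mod_cast hp.1.two_le
    rw [sub_nonneg, div_le_one (by linarith)]
    linarith
  · have : 0 ≤ 1 / (p : ℝ) := by positivity
    linarith

/-- `1 / V(z) ≥ ∑_{n ≤ z} 1/n ≥ log z`. -/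
theorem Vz_le {z : ℕ} (hz : 2 ≤ z) : Vz z ≤ 1 / Real.log z := by
  have hlog : 0 < Real.log z := Real.log_pos (by exact_mod_cast hz)
  have hpos : 0 < Vz z := Vz_pos z
  rw [le_div_iff₀ hlog]
  have hlt : ∀ {p : ℕ}, p.Prime → ‖invHom p‖ < 1 := by
    intro p hp
    have h : (2 : ℝ) ≤ p := by exact_mod_cast hp.two_le
    show ‖((p : ℝ))⁻¹‖ < 1
    rw [norm_inv, Real.norm_of_nonneg (by linarith)]
    exact inv_lt_one_of_one_lt₀ (by linarith)
  obtain ⟨-, hs⟩ :=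
    EulerProduct.summable_and_hasSum_smoothNumbers_prod_primesBelow_geometric hlt (z + 1)
  have hprod : ∏ p ∈ (z + 1).primesBelow, (1 - invHom p)⁻¹ = (Vz z)⁻¹ := by
    unfold Vz
    rw [Finset.prod_inv_distrib]
    congr 1
    refine Finset.prod_congr ?_ fun p _ => ?_
    · ext p
      rw [Nat.mem_primesBelow, mem_pz]
      constructor
      · rintro ⟨h1, h2⟩; exact ⟨h2, by omega⟩
      · rintro ⟨h1, h2⟩; exact ⟨by omega, h1⟩
    · show 1 - ((p : ℝ))⁻¹ = 1 - 1 / (p : ℝ)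
      rw [one_div]
  rw [hprod] at hs
  have hsub : ∑ n ∈ Icc 1 z, ((n : ℝ))⁻¹ ≤ (Vz z)⁻¹ := by
    let e : ℕ → Nat.smoothNumbers (z + 1) := fun n =>
      if h : 0 < n ∧ n < z + 1 then ⟨n, Nat.mem_smoothNumbers_of_lt h.1 h.2⟩
      else ⟨1, Nat.mem_smoothNumbers_of_lt one_pos (by omega)⟩
    have he : ∀ n ∈ Icc 1 z, (e n : ℕ) = n := by
      intro n hn
      rw [mem_Icc] at hn
      have h : 0 < n ∧ n < z + 1 := ⟨by omega, by omega⟩
      simp only [e, dif_pos h]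
    have hinj : Set.InjOn e (Icc 1 z : Finset ℕ) := by
      intro a ha b hb hab
      rw [← he a ha, ← he b hb, hab]
    have h1 : ∑ n ∈ Icc 1 z, ((n : ℝ))⁻¹ =
        ∑ m ∈ (Icc 1 z).image e, invHom m := by
      rw [Finset.sum_image hinj]
      refine Finset.sum_congr rfl fun n hn => ?_
      rw [he n hn]
      rfl
    rw [h1]
    exact sum_le_hasSum _ (fun m _ => inv_nonneg.mpr (Nat.cast_nonneg _)) hs
  have hharm : Real.log z ≤ ∑ n ∈ Icc 1 z, ((n : ℝ))⁻¹ := by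
    have h1 := log_add_one_le_harmonic z
    rw [harmonic_eq_sum_Icc] at h1
    push_cast at h1
    refine le_trans (Real.log_le_log (by exact_mod_cast (by omega : 0 < z)) (by linarith)) h1
  have h2 : Real.log z ≤ (Vz z)⁻¹ := hharm.trans hsub
  calc Vz z * Real.log z ≤ Vz z * (Vz z)⁻¹ := mul_le_mul_of_nonneg_left h2 hpos.le
    _ = 1 := mul_inv_cancel₀ hpos.ne'

/-- the indicator of the integers without prime factor `≤ z` -/
noncomputable def rgh (z n : ℕ) : ℝ := by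
  classical
  exact if ∀ p, p.Prime → p ≤ z → ¬ p ∣ n then 1 else 0

theorem rgh_nonneg (z n : ℕ) : 0 ≤ rgh z n := by
  unfold rgh; split_ifs <;> norm_num

theorem rgh_le_one (z n : ℕ) : rgh z n ≤ 1 := by
  unfold rgh; split_ifs <;> norm_num

theorem rgh_of {z n : ℕ} (h : ∀ p, p.Prime → p ≤ z → ¬ p ∣ n) : rgh z n = 1 := by
  unfold rgh; rw [if_pos h]

theorem rgh_of_not {z n p : ℕ} (hp : p.Prime) (hz : p ≤ z) (h : p ∣ n) : rgh z n = 0 := by
  unfold rgh; rw [if_neg]; push Not; exact ⟨p, hp, hz, h⟩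

/-- primes `> z` are rough -/
theorem rgh_prime {z p : ℕ} (hp : p.Prime) (h : z < p) : rgh z p = 1 := by
  refine rgh_of fun q hq hqz hd => ?_
  have := (Nat.prime_dvd_prime_iff_eq hq hp).1 hd
  omega

/-- squarefree, with all prime factors `≤ z` -/
def SmSq (z d : ℕ) : Prop := Squarefree d ∧ ∀ p, p.Prime → p ∣ d → p ≤ z

/-- transfer of a function of sets of primes to the integers -/
noncomputable def toN (z : ℕ) (f : Finset ℕ → ℝ) (d : ℕ) : ℝ := by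
  classical
  exact if Squarefree d ∧ d.primeFactors ⊆ pz z then f d.primeFactors else 0

theorem toN_ne {z : ℕ} {f : Finset ℕ → ℝ} {d : ℕ} (h : toN z f d ≠ 0) :
    Squarefree d ∧ d.primeFactors ⊆ pz z ∧ f d.primeFactors ≠ 0 := by
  unfold toN at h
  split_ifs at h with h1
  · exact ⟨h1.1, h1.2, h⟩
  · exact absurd rfl h

theorem toN_abs {z : ℕ} {f : Finset ℕ → ℝ} (hf : ∀ A, |f A| ≤ 1) (d : ℕ) : |toN z f d| ≤ 1 := by
  unfold toN
  split_ifs
  · exact hf _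
  · simp

theorem sqf_prod {A : Finset ℕ} (hp : ∀ p ∈ A, p.Prime) : Squarefree (∏ p ∈ A, p) := by
  refine Finset.squarefree_prod_of_pairwise_isCoprime (fun p h q h' hne => ?_) fun p h => (hp p h).squarefree
  simp only [Function.onFun, ← Nat.coprime_iff_isRelPrime]
  exact (Nat.coprime_primes (hp p h) (hp q h')).2 hne

theorem sum_toN {E : Type*} [AddCommGroup E] [Module ℝ E] {z D : ℕ} {f : Finset ℕ → ℝ}
    (hD : ∀ A, A ⊆ pz z → f A ≠ 0 → ∏ p ∈ A, p ≤ D) (F : ℕ → E) :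
    ∑ A ∈ (pz z).powerset, f A • F (∏ p ∈ A, p) = ∑ d ∈ Icc 1 D, toN z f d • F d := by
  classical
  have hpr : ∀ A, A ⊆ pz z → ∀ p ∈ A, p.Prime := fun A hA p hp => (mem_pz.1 (hA hp)).1
  have e1 : ∑ A ∈ (pz z).powerset, f A • F (∏ p ∈ A, p) =
      ∑ A ∈ (pz z).powerset.filter (fun A => f A ≠ 0), f A • F (∏ p ∈ A, p) := by
    rw [Finset.sum_filter_of_ne]
    intro A _ h h0
    exact h (by rw [h0, zero_smul])
  have e2 : ∑ d ∈ Icc 1 D, toN z f d • F d =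
      ∑ d ∈ (Icc 1 D).filter (fun d => toN z f d ≠ 0), toN z f d • F d := by
    rw [Finset.sum_filter_of_ne]
    intro A _ h h0
    exact h (by rw [h0, zero_smul])
  rw [e1, e2]
  refine Finset.sum_nbij' (fun A => ∏ p ∈ A, p) (fun d => d.primeFactors) ?_ ?_ ?_ ?_ ?_
  · intro A hA
    rw [mem_filter, mem_powerset] at hA
    have hp := hpr A hA.1
    rw [mem_filter, mem_Icc]
    refine ⟨⟨?_, hD A hA.1 hA.2⟩, ?_⟩
    · exact Finset.prod_pos fun p h => (hp p h).pos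
    · have h1 : (∏ p ∈ A, p).primeFactors = A := Nat.primeFactors_prod hp
      have h2 : Squarefree (∏ p ∈ A, p) := sqf_prod hp
      unfold toN
      rw [h1, if_pos ⟨h2, hA.1⟩]
      exact hA.2
  · intro d hd
    rw [mem_filter, mem_Icc] at hd
    obtain ⟨h1, h2, h3⟩ := toN_ne hd.2
    rw [mem_filter, mem_powerset]
    exact ⟨h2, h3⟩
  · intro A hA
    rw [mem_filter, mem_powerset] at hA
    exact Nat.primeFactors_prod (hpr A hA.1)
  · intro d hd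
    rw [mem_filter, mem_Icc] at hd
    obtain ⟨h1, h2, h3⟩ := toN_ne hd.2
    exact Nat.prod_primeFactors_of_squarefree h1
  · intro A hA
    rw [mem_filter, mem_powerset] at hA
    have hp := hpr A hA.1
    have h1 : (∏ p ∈ A, p).primeFactors = A := Nat.primeFactors_prod hp
    have h2 : Squarefree (∏ p ∈ A, p) := sqf_prod hp
    have h3 : toN z f (∏ p ∈ A, p) = f A := by
      unfold toN
      rw [h1, if_pos ⟨h2, hA.1⟩]
    rw [h3]

theorem sum_toN_dvd {z D : ℕ} {f : Finset ℕ → ℝ}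
    (hD : ∀ A, A ⊆ pz z → f A ≠ 0 → ∏ p ∈ A, p ≤ D) (n : ℕ) :
    ∑ A ∈ ((pz z).filter (fun p => p ∣ n)).powerset, f A =
      ∑ d ∈ Icc 1 D, if d ∣ n then toN z f d else 0 := by
  classical
  have h := sum_toN (E := ℝ) hD (fun d => if d ∣ n then (1 : ℝ) else 0)
  have e1 : ∑ d ∈ Icc 1 D, toN z f d • (if d ∣ n then (1 : ℝ) else 0) =
      ∑ d ∈ Icc 1 D, if d ∣ n then toN z f d else 0 := by
    refine Finset.sum_congr rfl fun d _ => ?_
    split_ifs <;> simp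
  rw [← e1, ← h]
  have e2 : ∑ A ∈ (pz z).powerset, f A • (if ∏ p ∈ A, p ∣ n then (1 : ℝ) else 0) =
      ∑ A ∈ (pz z).powerset.filter (fun A => ∏ p ∈ A, p ∣ n), f A := by
    rw [Finset.sum_filter]
    refine Finset.sum_congr rfl fun A _ => ?_
    split_ifs <;> simp
  rw [e2]
  refine Finset.sum_congr ?_ fun _ _ => rfl
  ext A
  rw [mem_powerset, mem_filter, mem_powerset]
  constructor
  · intro hA
    have hA' : A ⊆ pz z := hA.trans (Finset.filter_subset _ _)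
    refine ⟨hA', ?_⟩
    refine Finset.prod_primes_dvd n (fun p hp => ?_) fun p hp => (mem_filter.1 (hA hp)).2
    exact (mem_pz.1 (hA' hp)).1.prime
  · rintro ⟨hA, hd⟩ p hp
    exact mem_filter.2 ⟨hA hp, (Finset.dvd_prod_of_mem (fun p => p) hp).trans hd⟩

theorem ie_eq_rgh (z n : ℕ) : ie ((pz z).filter (fun p => p ∣ n)) = rgh z n := by
  classical
  unfold ie
  by_cases h : ∀ p, p.Prime → p ≤ z → ¬ p ∣ n
  · rw [rgh_of h, if_pos]
    rw [Finset.filter_eq_empty_iff]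
    intro p hp
    rw [mem_pz] at hp
    exact h p hp.1 hp.2
  · push Not at h
    obtain ⟨p, hp, hz, hd⟩ := h
    rw [rgh_of_not hp hz hd, if_neg]
    intro h0
    have : p ∈ (pz z).filter (fun p => p ∣ n) := mem_filter.2 ⟨mem_pz.2 ⟨hp, hz⟩, hd⟩
    rw [h0] at this
    simp at this

/-- **Fundamental lemma of the sieve (Brun-Hooley).** `lp` = majorant weights, `le` = weights of the error, level
`z ^ (4 b + 6)`. -/
theorem brun : ∃ C : ℝ, 0 < C ∧ ∀ z b : ℕ, 1 ≤ z → ∃ lp le : ℕ → ℝ,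
    (∀ d, |lp d| ≤ 1) ∧ (∀ d, |le d| ≤ 1) ∧
    (∀ d, lp d ≠ 0 ∨ le d ≠ 0 → 1 ≤ d ∧ d ≤ z ^ (4 * b + 6) ∧ SmSq z d) ∧
    (∀ n, rgh z n ≤ ∑ d ∈ Icc 1 (z ^ (4 * b + 6)), if d ∣ n then lp d else 0) ∧
    (∀ n, (∑ d ∈ Icc 1 (z ^ (4 * b + 6)), if d ∣ n then lp d else 0) - rgh z n ≤
      ∑ d ∈ Icc 1 (z ^ (4 * b + 6)), if d ∣ n then le d else 0) ∧
    (∑ d ∈ Icc 1 (z ^ (4 * b + 6)), lp d / d ≤ C * Vz z) ∧
    (∑ d ∈ Icc 1 (z ^ (4 * b + 6)), le d / d ≤ C * Real.exp (-(2 * b : ℝ)) * Vz z) := by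
  refine ⟨Real.exp KB * (1 + KB), mul_pos (Real.exp_pos _) (by linarith [KB_pos]), fun z b hz => ?_⟩
  obtain ⟨lp, le, h1, h2, h3, h4, h5, h6, h7⟩ := brun_sw z b hz
  have hKB := KB_pos
  have hV := Vz_nonneg z
  have hDp : ∀ A, A ⊆ pz z → lp A ≠ 0 → ∏ p ∈ A, p ≤ z ^ (4 * b + 6) := fun A hA h => h3 A hA (Or.inl h)
  have hDe : ∀ A, A ⊆ pz z → le A ≠ 0 → ∏ p ∈ A, p ≤ z ^ (4 * b + 6) := fun A hA h => h3 A hA (Or.inr h)
  have hcast : ∀ A : Finset ℕ, ∏ p ∈ A, (1 / (p : ℝ)) = 1 / ((∏ p ∈ A, p : ℕ) : ℝ) := by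
    intro A
    push_cast
    rw [Finset.prod_div_distrib, Finset.prod_const_one]
  have hsum : ∀ f : Finset ℕ → ℝ, (∀ A, A ⊆ pz z → f A ≠ 0 → ∏ p ∈ A, p ≤ z ^ (4 * b + 6)) →
      ∑ d ∈ Icc 1 (z ^ (4 * b + 6)), toN z f d / d = ∑ A ∈ (pz z).powerset, f A * ∏ p ∈ A, (1 / (p : ℝ)) := by
    intro f hf
    have h := sum_toN (E := ℝ) hf (fun d => 1 / (d : ℝ))
    simp only [smul_eq_mul] at h
    calc ∑ d ∈ Icc 1 (z ^ (4 * b + 6)), toN z f d / d =
        ∑ d ∈ Icc 1 (z ^ (4 * b + 6)), toN z f d * (1 / (d : ℝ)) := Finset.sum_congr rfl fun d _ => by ring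
      _ = ∑ A ∈ (pz z).powerset, f A * (1 / ((∏ p ∈ A, p : ℕ) : ℝ)) := h.symm
      _ = _ := Finset.sum_congr rfl fun A _ => by rw [hcast A]
  have hb0 : Real.exp (-(2 * b : ℝ)) ≤ 1 := by
    rw [Real.exp_le_one_iff]
    have : (0 : ℝ) ≤ b := Nat.cast_nonneg b
    linarith
  have hbp := Real.exp_pos (-(2 * b : ℝ))
  have hE : Real.exp (KB * Real.exp (-(2 * b : ℝ))) ≤ Real.exp KB := by
    apply Real.exp_le_exp.2
    nlinarith
  refine ⟨toN z lp, toN z le, toN_abs h1, toN_abs h2, ?_, ?_, ?_, ?_, ?_⟩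
  · intro d hd
    have key : Squarefree d ∧ d.primeFactors ⊆ pz z ∧ d ≤ z ^ (4 * b + 6) := by
      rcases hd with hd | hd
      · obtain ⟨a1, a2, a3⟩ := toN_ne hd
        have := hDp _ a2 a3
        rw [Nat.prod_primeFactors_of_squarefree a1] at this
        exact ⟨a1, a2, this⟩
      · obtain ⟨a1, a2, a3⟩ := toN_ne hd
        have := hDe _ a2 a3
        rw [Nat.prod_primeFactors_of_squarefree a1] at this
        exact ⟨a1, a2, this⟩
    refine ⟨Nat.pos_of_ne_zero key.1.ne_zero, key.2.2, key.1, fun p hp hpd => ?_⟩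
    have := key.2.1 (Nat.mem_primeFactors.2 ⟨hp, hpd, key.1.ne_zero⟩)
    exact (mem_pz.1 this).2
  · intro n
    rw [← sum_toN_dvd hDp n, ← ie_eq_rgh]
    exact h4 _ (Finset.filter_subset _ _)
  · intro n
    rw [← sum_toN_dvd hDp n, ← sum_toN_dvd hDe n, ← ie_eq_rgh]
    exact h5 _ (Finset.filter_subset _ _)
  · rw [hsum lp hDp]
    refine h6.trans ?_
    calc Vz z * Real.exp (KB * Real.exp (-(2 * b : ℝ))) ≤ Vz z * Real.exp KB := by gcongr
      _ ≤ Vz z * (Real.exp KB * (1 + KB)) := by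
          refine mul_le_mul_of_nonneg_left ?_ hV
          nlinarith [Real.exp_pos KB]
      _ = _ := by ring
  · rw [hsum le hDe]
    refine h7.trans ?_
    calc Vz z * (KB * Real.exp (-(2 * b : ℝ))) * Real.exp (KB * Real.exp (-(2 * b : ℝ))) ≤
        Vz z * (KB * Real.exp (-(2 * b : ℝ))) * Real.exp KB := by gcongr
      _ = Real.exp KB * KB * Real.exp (-(2 * b : ℝ)) * Vz z := by ring
      _ ≤ Real.exp KB * (1 + KB) * Real.exp (-(2 * b : ℝ)) * Vz z := by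
          gcongr
          linarith

/-- number of multiples in an interval -/
theorem card_dvd (a N d : ℕ) (hd : 1 ≤ d) :
    |(((Ico a (a + N)).filter (fun n => d ∣ n)).card : ℝ) - N / d| ≤ 1 := by
  have h := Int.Ico_filter_dvd_card (a := (a : ℤ)) (b := ((a + N : ℕ) : ℤ)) (r := (d : ℤ)) (by exact_mod_cast hd)
  have hc : (((Ico a (a + N)).filter (fun n => d ∣ n)).card : ℤ) =
      ((Ico (a : ℤ) ((a + N : ℕ) : ℤ)).filter (fun n => (d : ℤ) ∣ n)).card := by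
    congr 1
    refine Finset.card_bij (fun n _ => (n : ℤ)) ?_ ?_ ?_
    · intro n hn
      rw [mem_filter, mem_Ico] at hn ⊢
      refine ⟨⟨by exact_mod_cast hn.1.1, by exact_mod_cast hn.1.2⟩, by exact_mod_cast hn.2⟩
    · intro x _ y _ hxy
      exact_mod_cast hxy
    · intro m hm
      rw [mem_filter, mem_Ico] at hm
      have hm0 : 0 ≤ m := le_trans (by exact_mod_cast Nat.zero_le a) hm.1.1
      obtain ⟨n, rfl⟩ := Int.eq_ofNat_of_zero_le hm0
      refine ⟨n, ?_, rfl⟩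
      rw [mem_filter, mem_Ico]
      refine ⟨⟨by exact_mod_cast hm.1.1, by exact_mod_cast hm.1.2⟩, by exact_mod_cast hm.2⟩
  rw [h] at hc
  have hd0 : (0 : ℚ) < d := by exact_mod_cast hd
  have hR : (((Ico a (a + N)).filter (fun n => d ∣ n)).card : ℝ) =
      ((max (⌈(((a + N : ℕ) : ℤ) : ℚ) / ((d : ℤ) : ℚ)⌉ - ⌈((a : ℤ) : ℚ) / ((d : ℤ) : ℚ)⌉) 0 : ℤ) : ℝ) := by
    rw [← hc]; push_cast; rfl
  rw [hR]
  set u := ⌈(((a + N : ℕ) : ℤ) : ℚ) / ((d : ℤ) : ℚ)⌉ with hu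
  set v := ⌈((a : ℤ) : ℚ) / ((d : ℤ) : ℚ)⌉ with hv
  have u1 := Int.le_ceil ((((a + N : ℕ) : ℤ) : ℚ) / ((d : ℤ) : ℚ))
  have u2 := Int.ceil_lt_add_one ((((a + N : ℕ) : ℤ) : ℚ) / ((d : ℤ) : ℚ))
  have v1 := Int.le_ceil (((a : ℤ) : ℚ) / ((d : ℤ) : ℚ))
  have v2 := Int.ceil_lt_add_one (((a : ℤ) : ℚ) / ((d : ℤ) : ℚ))
  rw [← hu] at u1 u2
  rw [← hv] at v1 v2
  have e : (((a + N : ℕ) : ℤ) : ℚ) / ((d : ℤ) : ℚ) = ((a : ℤ) : ℚ) / ((d : ℤ) : ℚ) + (N : ℚ) / d := by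
    push_cast; ring
  rw [e] at u1 u2
  have hN0 : (0 : ℚ) ≤ (N : ℚ) / d := by positivity
  have w1 : (N : ℚ) / d - 1 < ((u - v : ℤ) : ℚ) := by push_cast; linarith
  have w2 : ((u - v : ℤ) : ℚ) < (N : ℚ) / d + 1 := by push_cast; linarith
  have w3 : (-1 : ℚ) < ((u - v : ℤ) : ℚ) := by linarith
  have w4 : 0 ≤ u - v := by
    have : (-1 : ℤ) < u - v := by exact_mod_cast w3
    omega
  rw [max_eq_left w4]
  have x1 : (N : ℝ) / d - 1 < ((u - v : ℤ) : ℝ) := by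
    have := (Rat.cast_lt (K := ℝ)).2 w1
    push_cast at this ⊢
    exact this
  have x2 : ((u - v : ℤ) : ℝ) < (N : ℝ) / d + 1 := by
    have := (Rat.cast_lt (K := ℝ)).2 w2
    push_cast at this ⊢
    exact this
  rw [abs_le]
  constructor <;> linarith

theorem sum_dvd_weight (a N D : ℕ) (w : ℕ → ℝ) (hw : ∀ d, |w d| ≤ 1) :
    ∑ n ∈ Ico a (a + N), (∑ d ∈ Icc 1 D, if d ∣ n then w d else 0) ≤ N * (∑ d ∈ Icc 1 D, w d / d) + D := by
  rw [Finset.sum_comm]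
  have h1 : ∀ d ∈ Icc 1 D, ∑ n ∈ Ico a (a + N), (if d ∣ n then w d else 0) ≤ N * (w d / d) + 1 := by
    intro d hd
    rw [mem_Icc] at hd
    rw [← Finset.sum_filter, Finset.sum_const, nsmul_eq_mul]
    have h := card_dvd a N d hd.1
    have h2 : ((((Ico a (a + N)).filter (fun n => d ∣ n)).card : ℝ) - N / d) * w d ≤ 1 := by
      calc ((((Ico a (a + N)).filter (fun n => d ∣ n)).card : ℝ) - N / d) * w d ≤
          |((((Ico a (a + N)).filter (fun n => d ∣ n)).card : ℝ) - N / d) * w d| := le_abs_self _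
        _ ≤ 1 := by rw [abs_mul]; exact mul_le_one₀ h (abs_nonneg _) (hw d)
    have e : (N : ℝ) * (w d / d) = N / d * w d := by ring
    rw [e]
    linarith
  refine (Finset.sum_le_sum h1).trans ?_
  rw [Finset.sum_add_distrib, ← Finset.mul_sum]
  simp

/-- the number of rough integers in an interval -/
theorem rough_card : ∃ C : ℝ, 0 < C ∧ ∀ z a N : ℕ, 1 ≤ z →
    ∑ n ∈ Ico a (a + N), rgh z n ≤ C * Vz z * N + (z : ℝ) ^ 6 := by
  obtain ⟨C, hC, h⟩ := brun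
  refine ⟨C, hC, fun z a N hz => ?_⟩
  obtain ⟨lp, le, h1, h2, h3, h4, h5, h6, h7⟩ := h z 0 hz
  calc ∑ n ∈ Ico a (a + N), rgh z n ≤
      ∑ n ∈ Ico a (a + N), (∑ d ∈ Icc 1 (z ^ (4 * 0 + 6)), if d ∣ n then lp d else 0) :=
        Finset.sum_le_sum fun n _ => h4 n
    _ ≤ N * (∑ d ∈ Icc 1 (z ^ (4 * 0 + 6)), lp d / d) + (z ^ (4 * 0 + 6) : ℕ) := sum_dvd_weight _ _ _ _ h1
    _ ≤ N * (C * Vz z) + (z ^ (4 * 0 + 6) : ℕ) := by gcongr
    _ = _ := by push_cast; ring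

/-- sums over rough integers -/
theorem rough_sum : ∃ C : ℝ, 0 < C ∧ ∀ z b a N : ℕ, 1 ≤ z → ∀ g : ℕ → ℂ, (∀ n, ‖g n‖ ≤ 1) →
    ‖∑ n ∈ Ico a (a + N), (rgh z n : ℂ) * g n‖ ≤
      ∑ d ∈ Icc 1 (z ^ (4 * b + 6)), ‖∑ n ∈ (Ico a (a + N)).filter (fun n => d ∣ n), g n‖ +
        (C * Real.exp (-(2 * b : ℝ)) * Vz z * N + (z : ℝ) ^ (4 * b + 6)) := by
  obtain ⟨C, hC, h⟩ := brun
  refine ⟨C, hC, fun z b a N hz g hg => ?_⟩
  obtain ⟨lp, le, h1, h2, h3, h4, h5, h6, h7⟩ := h z b hz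
  set D := z ^ (4 * b + 6) with hD
  set W : ℕ → ℝ := fun n => ∑ d ∈ Icc 1 D, if d ∣ n then lp d else 0 with hW
  have e : ∑ n ∈ Ico a (a + N), (rgh z n : ℂ) * g n =
      ∑ n ∈ Ico a (a + N), (W n : ℂ) * g n - ∑ n ∈ Ico a (a + N), ((W n - rgh z n : ℝ) : ℂ) * g n := by
    rw [← Finset.sum_sub_distrib]
    refine Finset.sum_congr rfl fun n _ => ?_
    push_cast; ring
  rw [e]
  refine (norm_sub_le _ _).trans (add_le_add ?_ ?_)
  · have e2 : ∑ n ∈ Ico a (a + N), (W n : ℂ) * g n =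
        ∑ d ∈ Icc 1 D, (lp d : ℂ) * ∑ n ∈ (Ico a (a + N)).filter (fun n => d ∣ n), g n := by
      simp only [hW]
      calc ∑ n ∈ Ico a (a + N), ((∑ d ∈ Icc 1 D, if d ∣ n then lp d else 0 : ℝ) : ℂ) * g n =
          ∑ n ∈ Ico a (a + N), ∑ d ∈ Icc 1 D, (if d ∣ n then (lp d : ℂ) * g n else 0) := by
            refine Finset.sum_congr rfl fun n _ => ?_
            push_cast
            rw [Finset.sum_mul]
            refine Finset.sum_congr rfl fun d _ => ?_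
            split_ifs <;> simp
        _ = ∑ d ∈ Icc 1 D, ∑ n ∈ Ico a (a + N), (if d ∣ n then (lp d : ℂ) * g n else 0) := Finset.sum_comm
        _ = _ := by
            refine Finset.sum_congr rfl fun d _ => ?_
            rw [← Finset.sum_filter, Finset.mul_sum]
    rw [e2]
    refine (norm_sum_le _ _).trans (Finset.sum_le_sum fun d _ => ?_)
    rw [norm_mul]
    have : ‖(lp d : ℂ)‖ ≤ 1 := by rw [Complex.norm_real]; exact h1 d
    calc ‖(lp d : ℂ)‖ * _ ≤ 1 * _ := mul_le_mul_of_nonneg_right this (norm_nonneg _)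
      _ = _ := one_mul _
  · have hnn : ∀ n, 0 ≤ W n - rgh z n := fun n => by linarith [h4 n]
    calc ‖∑ n ∈ Ico a (a + N), ((W n - rgh z n : ℝ) : ℂ) * g n‖ ≤
        ∑ n ∈ Ico a (a + N), (W n - rgh z n) := by
          refine (norm_sum_le _ _).trans (Finset.sum_le_sum fun n _ => ?_)
          rw [norm_mul, Complex.norm_real, Real.norm_of_nonneg (hnn n)]
          calc (W n - rgh z n) * ‖g n‖ ≤ (W n - rgh z n) * 1 := mul_le_mul_of_nonneg_left (hg n) (hnn n)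
            _ = _ := mul_one _
      _ ≤ ∑ n ∈ Ico a (a + N), (∑ d ∈ Icc 1 D, if d ∣ n then le d else 0) :=
          Finset.sum_le_sum fun n _ => h5 n
      _ ≤ N * (∑ d ∈ Icc 1 D, le d / d) + D := sum_dvd_weight _ _ _ _ h2
      _ ≤ N * (C * Real.exp (-(2 * b : ℝ)) * Vz z) + D := by gcongr
      _ = _ := by rw [hD]; push_cast; ring

end Pool.Agent.LO
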