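import Mathlib

/-! The Brun-Hooley sieve, part A: Bonferroni inequalities for elementary symmetric functions and the block step. -/

set_option autoImplicit false

namespace Pool.Agent.LO

open Finset

/-- the truncated alternating sum `∑_{A ⊆ S, #A < k} (-1)^{#A} ∏_{p ∈ A} x p` -/
noncomputable def tr (x : ℕ → ℝ) (k : ℕ) (S : Finset ℕ) : ℝ :=
  ∑ A ∈ S.powerset, if A.card < k then (-1) ^ A.card * ∏ p ∈ A, x p else 0

/-- the elementary symmetric function `∑_{A ⊆ S, #A = k} ∏_{p ∈ A} x p` -/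
noncomputable def es (x : ℕ → ℝ) (k : ℕ) (S : Finset ℕ) : ℝ :=
  ∑ A ∈ S.powerset, if A.card = k then ∏ p ∈ A, x p else 0

theorem tr_zero (x : ℕ → ℝ) (S : Finset ℕ) : tr x 0 S = 0 := by
  simp [tr]

theorem es_zero (x : ℕ → ℝ) (S : Finset ℕ) : es x 0 S = 1 := by
  unfold es
  rw [Finset.sum_eq_single ∅]
  · simp
  · intro A _ hA
    rw [if_neg]
    rw [Finset.card_eq_zero]
    exact hA
  · intro h
    exact absurd (Finset.empty_mem_powerset S) h

theorem tr_insert (x : ℕ → ℝ) (k : ℕ) {a : ℕ} {S : Finset ℕ} (ha : a ∉ S) :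
    tr x (k + 1) (insert a S) = tr x (k + 1) S - x a * tr x k S := by
  unfold tr
  rw [Finset.sum_powerset_insert ha, sub_eq_add_neg, ← neg_mul, Finset.mul_sum]
  congr 1
  refine Finset.sum_congr rfl fun A hA => ?_
  have haA : a ∉ A := fun h => ha (Finset.mem_powerset.1 hA h)
  rw [Finset.card_insert_of_notMem haA, Finset.prod_insert haA]
  by_cases h : A.card < k
  · rw [if_pos h, if_pos (by omega), pow_succ]
    ring
  · rw [if_neg h, if_neg (by omega), mul_zero]

theorem es_insert (x : ℕ → ℝ) (k : ℕ) {a : ℕ} {S : Finset ℕ} (ha : a ∉ S) :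
    es x (k + 1) (insert a S) = es x (k + 1) S + x a * es x k S := by
  unfold es
  rw [Finset.sum_powerset_insert ha, Finset.mul_sum]
  congr 1
  refine Finset.sum_congr rfl fun A hA => ?_
  have haA : a ∉ A := fun h => ha (Finset.mem_powerset.1 hA h)
  rw [Finset.card_insert_of_notMem haA, Finset.prod_insert haA]
  by_cases h : A.card = k
  · rw [if_pos h, if_pos (by omega)]
  · rw [if_neg h, if_neg (by omega), mul_zero]

theorem es_nonneg {x : ℕ → ℝ} {S : Finset ℕ} (hx : ∀ p ∈ S, 0 ≤ x p) (k : ℕ) : 0 ≤ es x k S := by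
  unfold es
  refine Finset.sum_nonneg fun A hA => ?_
  split_ifs
  · exact Finset.prod_nonneg fun p hp => hx p (Finset.mem_powerset.1 hA hp)
  · exact le_rfl

/-- Bonferroni -/
theorem bonf {x : ℕ → ℝ} {S : Finset ℕ} (h0 : ∀ p ∈ S, 0 ≤ x p) (h1 : ∀ p ∈ S, x p ≤ 1) (k : ℕ) :
    0 ≤ (-1) ^ k * (∏ p ∈ S, (1 - x p) - tr x k S) ∧
    (-1) ^ k * (∏ p ∈ S, (1 - x p) - tr x k S) ≤ es x k S := by
  induction S using Finset.induction_on generalizing k with
  | empty =>
    rcases k with _ | k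
    · rw [tr_zero, es_zero]; simp
    · have e1 : tr x (k + 1) ∅ = 1 := by simp [tr]
      have e2 : es x (k + 1) ∅ = 0 := by simp [es]
      rw [e1, e2]; simp
  | insert a S ha ih =>
    have h0' : ∀ p ∈ S, 0 ≤ x p := fun p hp => h0 p (Finset.mem_insert_of_mem hp)
    have h1' : ∀ p ∈ S, x p ≤ 1 := fun p hp => h1 p (Finset.mem_insert_of_mem hp)
    have ha0 := h0 a (Finset.mem_insert_self a S)
    have ha1 := h1 a (Finset.mem_insert_self a S)
    rcases k with _ | k
    · rw [tr_zero, es_zero, pow_zero, one_mul, sub_zero, Finset.prod_insert ha]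
      have hp0 : 0 ≤ ∏ p ∈ S, (1 - x p) := Finset.prod_nonneg fun p hp => by linarith [h1' p hp]
      have hp1 : ∏ p ∈ S, (1 - x p) ≤ 1 :=
        Finset.prod_le_one (fun p hp => by linarith [h1' p hp]) fun p hp => by linarith [h0' p hp]
      constructor
      · exact mul_nonneg (by linarith) hp0
      · nlinarith
    · obtain ⟨i1, i2⟩ := ih h0' h1' (k + 1)
      obtain ⟨j1, j2⟩ := ih h0' h1' k
      rw [tr_insert x k ha, es_insert x k ha, Finset.prod_insert ha]
      have e : (-1 : ℝ) ^ (k + 1) * ((1 - x a) * ∏ p ∈ S, (1 - x p) - (tr x (k + 1) S - x a * tr x k S)) =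
          (-1) ^ (k + 1) * (∏ p ∈ S, (1 - x p) - tr x (k + 1) S) +
          x a * ((-1) ^ k * (∏ p ∈ S, (1 - x p) - tr x k S)) := by
        rw [pow_succ]; ring
      rw [e]
      constructor
      · have := mul_nonneg ha0 j1
        linarith
      · have := mul_le_mul_of_nonneg_left j2 ha0
        linarith

theorem pow_step {L x : ℝ} (hL : 0 ≤ L) (hx : 0 ≤ x) (k : ℕ) :
    L ^ (k + 1) + (k + 1) * x * L ^ k ≤ (L + x) ^ (k + 1) := by
  induction k with
  | zero => simp
  | succ k ih =>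
    have h1 : (L ^ (k + 1) + (k + 1) * x * L ^ k) * (L + x) ≤ (L + x) ^ (k + 1) * (L + x) :=
      mul_le_mul_of_nonneg_right ih (by linarith)
    have h2 : (L ^ (k + 1) + (k + 1) * x * L ^ k) * (L + x) =
        L ^ (k + 2) + (k + 2) * x * L ^ (k + 1) + (k + 1) * x ^ 2 * L ^ k := by ring
    have h3 : 0 ≤ (k + 1) * x ^ 2 * L ^ k := by positivity
    have h4 : (L + x) ^ (k + 1) * (L + x) = (L + x) ^ (k + 1 + 1) := by ring
    push_cast
    nlinarith

theorem es_le {x : ℕ → ℝ} {S : Finset ℕ} (h0 : ∀ p ∈ S, 0 ≤ x p) (k : ℕ) :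
    es x k S ≤ (∑ p ∈ S, x p) ^ k / (k.factorial : ℝ) := by
  induction S using Finset.induction_on generalizing k with
  | empty =>
    rcases k with _ | k
    · rw [es_zero]; simp
    · have e2 : es x (k + 1) ∅ = 0 := by simp [es]
      rw [e2]
      positivity
  | insert a S ha ih =>
    have h0' : ∀ p ∈ S, 0 ≤ x p := fun p hp => h0 p (Finset.mem_insert_of_mem hp)
    have ha0 := h0 a (Finset.mem_insert_self a S)
    have hL : 0 ≤ ∑ p ∈ S, x p := Finset.sum_nonneg h0'
    rcases k with _ | k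
    · rw [es_zero]; simp
    · rw [es_insert x k ha, Finset.sum_insert ha]
      have i1 := ih h0' (k + 1)
      have i2 := mul_le_mul_of_nonneg_left (ih h0' k) ha0
      have hs := pow_step hL ha0 k
      have hk : (0 : ℝ) < (k.factorial : ℝ) := by exact_mod_cast k.factorial_pos
      have hk1 : ((k + 1).factorial : ℝ) = (k + 1) * (k.factorial : ℝ) := by
        rw [Nat.factorial_succ]; push_cast; ring
      have e : (∑ p ∈ S, x p) ^ (k + 1) / ((k + 1).factorial : ℝ) + x a * ((∑ p ∈ S, x p) ^ k / (k.factorial : ℝ)) =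
          ((∑ p ∈ S, x p) ^ (k + 1) + (k + 1) * x a * (∑ p ∈ S, x p) ^ k) / ((k + 1).factorial : ℝ) := by
        rw [hk1]
        field_simp
      calc es x (k + 1) S + x a * es x k S ≤ _ := add_le_add i1 i2
        _ = _ := e
        _ ≤ (∑ p ∈ S, x p + x a) ^ (k + 1) / ((k + 1).factorial : ℝ) := by gcongr
        _ = _ := by rw [add_comm (x a)]

end Pool.Agent.LO
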