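import Pool.Agent.Lib.MP_3e612f_nt.LO.BrunA

/-! The Brun-Hooley sieve, part B: adding a block of primes. -/

set_option autoImplicit false

namespace Pool.Agent.LO

open Finset

/-- the indicator of the empty set -/
noncomputable def ie (N : Finset ℕ) : ℝ := if N = ∅ then 1 else 0

/-- sieve weights for the set `S` of primes: level `D`, main term of the majorant at most `M`, main term of the error
at most `R`. -/
def HasSW (S : Finset ℕ) (D : ℕ) (M R : ℝ) : Prop :=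
  ∃ lp le : Finset ℕ → ℝ,
    (∀ A, |lp A| ≤ 1) ∧ (∀ A, |le A| ≤ 1) ∧
    (∀ A, A ⊆ S → (lp A ≠ 0 ∨ le A ≠ 0) → ∏ p ∈ A, p ≤ D) ∧
    (∀ N, N ⊆ S → ie N ≤ ∑ A ∈ N.powerset, lp A) ∧
    (∀ N, N ⊆ S → ∑ A ∈ N.powerset, lp A - ie N ≤ ∑ A ∈ N.powerset, le A) ∧
    (∑ A ∈ S.powerset, lp A * ∏ p ∈ A, (1 / (p : ℝ)) ≤ M) ∧
    (∑ A ∈ S.powerset, le A * ∏ p ∈ A, (1 / (p : ℝ)) ≤ R)

theorem hasSW_empty : HasSW ∅ 1 1 0 := by
  refine ⟨fun _ => 1, fun _ => 0, by simp, by simp, ?_, ?_, ?_, by simp, by simp⟩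
  · intro A hA _
    rw [Finset.subset_empty.1 hA]; simp
  · intro N hN
    rw [Finset.subset_empty.1 hN]; simp [ie]
  · intro N hN
    rw [Finset.subset_empty.1 hN]; simp [ie]

theorem sum_powerset_split {S B N : Finset ℕ} (hd : Disjoint S B) (hN : N ⊆ S ∪ B) (f g : Finset ℕ → ℝ) :
    ∑ A ∈ N.powerset, f (A ∩ S) * g (A ∩ B) =
      (∑ A ∈ (N ∩ S).powerset, f A) * ∑ A ∈ (N ∩ B).powerset, g A := by
  rw [Finset.sum_mul_sum, ← Finset.sum_product']
  refine Finset.sum_nbij' (fun A => (A ∩ S, A ∩ B)) (fun x => x.1 ∪ x.2) ?_ ?_ ?_ ?_ ?_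
  · intro A hA
    rw [Finset.mem_powerset] at hA
    rw [Finset.mem_product, Finset.mem_powerset, Finset.mem_powerset]
    exact ⟨Finset.inter_subset_inter_right hA, Finset.inter_subset_inter_right hA⟩
  · rintro ⟨x, y⟩ hx
    rw [Finset.mem_product, Finset.mem_powerset, Finset.mem_powerset] at hx
    rw [Finset.mem_powerset]
    exact Finset.union_subset (hx.1.trans Finset.inter_subset_left) (hx.2.trans Finset.inter_subset_left)
  · intro A hA
    rw [Finset.mem_powerset] at hA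
    show (A ∩ S) ∪ (A ∩ B) = A
    rw [← Finset.inter_union_distrib_left]
    exact Finset.inter_eq_left.2 (hA.trans hN)
  · rintro ⟨x, y⟩ hx
    rw [Finset.mem_product, Finset.mem_powerset, Finset.mem_powerset] at hx
    have h1 : x ⊆ S := hx.1.trans Finset.inter_subset_right
    have h2 : y ⊆ B := hx.2.trans Finset.inter_subset_right
    show ((x ∪ y) ∩ S, (x ∪ y) ∩ B) = (x, y)
    rw [Finset.union_inter_distrib_right, Finset.union_inter_distrib_right,
      Finset.inter_eq_left.2 h1, Finset.inter_eq_left.2 h2,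
      Finset.disjoint_iff_inter_eq_empty.1 (hd.mono_left h1),
      Finset.disjoint_iff_inter_eq_empty.1 ((hd.mono_right h2).symm),
      Finset.union_empty, Finset.empty_union]
  · intro A _
    rfl

theorem prod_split {S B A : Finset ℕ} (hd : Disjoint S B) (hA : A ⊆ S ∪ B) (x : ℕ → ℝ) :
    ∏ p ∈ A, x p = (∏ p ∈ A ∩ S, x p) * ∏ p ∈ A ∩ B, x p := by
  rw [← Finset.prod_union ((hd.mono_left Finset.inter_subset_right).mono_right Finset.inter_subset_right),
    ← Finset.inter_union_distrib_left, Finset.inter_eq_left.2 hA]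

theorem prod_split_nat {S B A : Finset ℕ} (hd : Disjoint S B) (hA : A ⊆ S ∪ B) :
    ∏ p ∈ A, p = (∏ p ∈ A ∩ S, p) * ∏ p ∈ A ∩ B, p := by
  rw [← Finset.prod_union ((hd.mono_left Finset.inter_subset_right).mono_right Finset.inter_subset_right),
    ← Finset.inter_union_distrib_left, Finset.inter_eq_left.2 hA]

theorem sum_powerset_split' {S B : Finset ℕ} (hd : Disjoint S B) (f g : Finset ℕ → ℝ) (x : ℕ → ℝ) :
    ∑ A ∈ (S ∪ B).powerset, f (A ∩ S) * g (A ∩ B) * ∏ p ∈ A, x p =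
      (∑ A ∈ S.powerset, f A * ∏ p ∈ A, x p) * ∑ A ∈ B.powerset, g A * ∏ p ∈ A, x p := by
  have h1 : (S ∪ B) ∩ S = S := Finset.inter_eq_right.2 Finset.subset_union_left
  have h2 : (S ∪ B) ∩ B = B := Finset.inter_eq_right.2 Finset.subset_union_right
  have h := sum_powerset_split hd (subset_refl (S ∪ B)) (fun A => f A * ∏ p ∈ A, x p) (fun A => g A * ∏ p ∈ A, x p)
  rw [h1, h2] at h
  rw [← h]
  refine Finset.sum_congr rfl fun A hA => ?_
  rw [prod_split hd (Finset.mem_powerset.1 hA) x]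
  ring

/-- block weight -/
noncomputable def yb (b : ℕ) (A : Finset ℕ) : ℝ := if A.card < 2 * b + 1 then (-1) ^ A.card else 0

/-- block error -/
noncomputable def tb (b : ℕ) (A : Finset ℕ) : ℝ := if A.card = 2 * b + 1 then 1 else 0

theorem sum_yb (x : ℕ → ℝ) (b : ℕ) (B : Finset ℕ) :
    ∑ A ∈ B.powerset, yb b A * ∏ p ∈ A, x p = tr x (2 * b + 1) B := by
  unfold tr yb
  refine Finset.sum_congr rfl fun A _ => ?_
  split_ifs <;> simp

theorem sum_tb (x : ℕ → ℝ) (b : ℕ) (B : Finset ℕ) :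
    ∑ A ∈ B.powerset, tb b A * ∏ p ∈ A, x p = es x (2 * b + 1) B := by
  unfold es tb
  refine Finset.sum_congr rfl fun A _ => ?_
  split_ifs <;> simp

theorem odd_bonf {x : ℕ → ℝ} {S : Finset ℕ} (h0 : ∀ p ∈ S, 0 ≤ x p) (h1 : ∀ p ∈ S, x p ≤ 1) (b : ℕ) :
    ∏ p ∈ S, (1 - x p) ≤ tr x (2 * b + 1) S ∧
    tr x (2 * b + 1) S - ∏ p ∈ S, (1 - x p) ≤ es x (2 * b + 1) S := by
  obtain ⟨i, j⟩ := bonf h0 h1 (2 * b + 1)
  have e : (-1 : ℝ) ^ (2 * b + 1) = -1 := by
    rw [pow_succ, pow_mul]; norm_num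
  rw [e] at i j
  constructor <;> linarith

theorem block (b : ℕ) (N : Finset ℕ) :
    ie N ≤ ∑ A ∈ N.powerset, yb b A ∧
    ∑ A ∈ N.powerset, yb b A - ie N ≤ ∑ A ∈ N.powerset, tb b A := by
  have h := odd_bonf (x := fun _ => (1 : ℝ)) (S := N) (fun _ _ => zero_le_one) (fun _ _ => le_rfl) b
  have e1 := sum_yb (fun _ => (1 : ℝ)) b N
  have e2 := sum_tb (fun _ => (1 : ℝ)) b N
  simp only [Finset.prod_const_one, mul_one] at e1 e2
  rw [e1, e2]
  have e3 : ∏ p ∈ N, (1 - (fun _ : ℕ => (1 : ℝ)) p) = ie N := by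
    unfold ie
    split_ifs with hN
    · rw [hN]; simp
    · obtain ⟨a, ha⟩ := Finset.nonempty_iff_ne_empty.2 hN
      exact Finset.prod_eq_zero ha (by simp)
  rw [e3] at h
  exact h

theorem ie_nonneg (N : Finset ℕ) : 0 ≤ ie N := by
  unfold ie; split_ifs <;> norm_num

theorem ie_split {S B N : Finset ℕ} (hN : N ⊆ S ∪ B) : ie N = ie (N ∩ S) * ie (N ∩ B) := by
  unfold ie
  by_cases h : N = ∅
  · rw [if_pos h, h]; simp
  · rw [if_neg h]
    by_cases h1 : N ∩ S = ∅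
    · have h2 : N ∩ B ≠ ∅ := by
        intro h2
        apply h
        have : N = (N ∩ S) ∪ (N ∩ B) := by
          rw [← Finset.inter_union_distrib_left, Finset.inter_eq_left.2 hN]
        rw [this, h1, h2]; simp
      rw [if_neg h2, mul_zero]
    · rw [if_neg h1, zero_mul]

theorem hasSW_step {S B : Finset ℕ} {D Z : ℕ} {M R : ℝ} (h : HasSW S D M R) (hd : Disjoint S B)
    (hB : ∀ p ∈ B, 1 ≤ p ∧ p ≤ Z) (hZ : 1 ≤ Z) (b : ℕ) :
    HasSW (S ∪ B) (D * Z ^ (2 * b + 1)) (M * tr (fun p => 1 / (p : ℝ)) (2 * b + 1) B)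
      (R * tr (fun p => 1 / (p : ℝ)) (2 * b + 1) B + M * es (fun p => 1 / (p : ℝ)) (2 * b + 1) B) := by
  obtain ⟨lp, le, h1, h2, h3, h4, h5, h6, h7⟩ := h
  have hx0 : ∀ p ∈ B, 0 ≤ (fun p : ℕ => 1 / (p : ℝ)) p := fun p _ => by positivity
  have hx1 : ∀ p ∈ B, (fun p : ℕ => 1 / (p : ℝ)) p ≤ 1 := fun p hp => by
    have : (1 : ℝ) ≤ p := by exact_mod_cast (hB p hp).1
    show 1 / (p : ℝ) ≤ 1
    rw [div_le_one (by linarith)]
    exact this
  have hY0 : 0 ≤ tr (fun p => 1 / (p : ℝ)) (2 * b + 1) B := by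
    refine le_trans ?_ (odd_bonf hx0 hx1 b).1
    exact Finset.prod_nonneg fun p hp => by linarith [hx1 p hp]
  have hT0 := es_nonneg hx0 (2 * b + 1)
  have hyb : ∀ A, |yb b A| ≤ 1 := fun A => by
    unfold yb; split_ifs
    · rw [abs_pow]; simp
    · simp
  have htb : ∀ A, |tb b A| ≤ 1 := fun A => by
    unfold tb; split_ifs <;> simp
  have hcard : ∀ A, A ⊆ S ∪ B → (A ∩ B).card ≤ 2 * b + 1 → ∏ p ∈ A ∩ B, p ≤ Z ^ (2 * b + 1) := by
    intro A _ hA
    calc ∏ p ∈ A ∩ B, p ≤ ∏ p ∈ A ∩ B, Z :=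
          Finset.prod_le_prod' fun p hp => (hB p (Finset.mem_inter.1 hp).2).2
      _ = Z ^ (A ∩ B).card := by rw [Finset.prod_const]
      _ ≤ Z ^ (2 * b + 1) := Nat.pow_le_pow_right hZ hA
  refine ⟨fun A => lp (A ∩ S) * yb b (A ∩ B), fun A => le (A ∩ S) * yb b (A ∩ B) + lp (A ∩ S) * tb b (A ∩ B),
    ?_, ?_, ?_, ?_, ?_, ?_, ?_⟩
  · intro A
    rw [abs_mul]
    exact mul_le_one₀ (h1 _) (abs_nonneg _) (hyb _)
  · intro A
    show |le (A ∩ S) * yb b (A ∩ B) + lp (A ∩ S) * tb b (A ∩ B)| ≤ 1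
    by_cases hc : (A ∩ B).card = 2 * b + 1
    · have e : yb b (A ∩ B) = 0 := by unfold yb; rw [if_neg (by omega)]
      rw [e, mul_zero, zero_add, abs_mul]
      exact mul_le_one₀ (h1 _) (abs_nonneg _) (htb _)
    · have e : tb b (A ∩ B) = 0 := by unfold tb; rw [if_neg hc]
      rw [e, mul_zero, add_zero, abs_mul]
      exact mul_le_one₀ (h2 _) (abs_nonneg _) (hyb _)
  · intro A hA hne
    have hc : (A ∩ B).card ≤ 2 * b + 1 := by
      by_contra hc
      have e1 : yb b (A ∩ B) = 0 := by unfold yb; rw [if_neg (by omega)]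
      have e2 : tb b (A ∩ B) = 0 := by unfold tb; rw [if_neg (by omega)]
      simp only [e1, e2, mul_zero, add_zero, ne_eq, not_true, or_self] at hne
    have hS : lp (A ∩ S) ≠ 0 ∨ le (A ∩ S) ≠ 0 := by
      by_contra hcon
      push Not at hcon
      simp only [hcon.1, hcon.2, zero_mul, add_zero, ne_eq, not_true, or_self] at hne
    rw [prod_split_nat hd hA]
    exact Nat.mul_le_mul (h3 _ Finset.inter_subset_right hS) (hcard A hA hc)
  · intro N hN
    rw [sum_powerset_split hd hN lp (yb b), ie_split hN]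
    exact mul_le_mul (h4 _ Finset.inter_subset_right) (block b _).1 (ie_nonneg _)
      ((ie_nonneg _).trans (h4 _ Finset.inter_subset_right))
  · intro N hN
    rw [Finset.sum_add_distrib, sum_powerset_split hd hN lp (yb b), sum_powerset_split hd hN le (yb b),
      sum_powerset_split hd hN lp (tb b), ie_split hN]
    have a1 := h4 (N ∩ S) Finset.inter_subset_right
    have a2 := h5 (N ∩ S) Finset.inter_subset_right
    obtain ⟨a3, a4⟩ := block b (N ∩ B)
    have a5 := ie_nonneg (N ∩ S)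
    have a6 := ie_nonneg (N ∩ B)
    set P := ∑ A ∈ (N ∩ S).powerset, lp A
    set Q := ∑ A ∈ (N ∩ S).powerset, le A
    set Y := ∑ A ∈ (N ∩ B).powerset, yb b A
    set T := ∑ A ∈ (N ∩ B).powerset, tb b A
    have e : P * Y - ie (N ∩ S) * ie (N ∩ B) = (P - ie (N ∩ S)) * Y + ie (N ∩ S) * (Y - ie (N ∩ B)) := by ring
    rw [e]
    refine add_le_add (mul_le_mul_of_nonneg_right a2 (a6.trans a3)) ?_
    exact mul_le_mul a1 a4 (by linarith) (a5.trans a1)
  · rw [sum_powerset_split' hd lp (yb b), sum_yb]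
    exact mul_le_mul_of_nonneg_right h6 hY0
  · have e : ∑ A ∈ (S ∪ B).powerset, (le (A ∩ S) * yb b (A ∩ B) + lp (A ∩ S) * tb b (A ∩ B)) * ∏ p ∈ A, (1 / (p : ℝ)) =
        ∑ A ∈ (S ∪ B).powerset, le (A ∩ S) * yb b (A ∩ B) * ∏ p ∈ A, (1 / (p : ℝ)) +
        ∑ A ∈ (S ∪ B).powerset, lp (A ∩ S) * tb b (A ∩ B) * ∏ p ∈ A, (1 / (p : ℝ)) := by
      rw [← Finset.sum_add_distrib]
      exact Finset.sum_congr rfl fun A _ => by ring
    rw [e, sum_powerset_split' hd le (yb b), sum_powerset_split' hd lp (tb b), sum_yb, sum_tb]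
    exact add_le_add (mul_le_mul_of_nonneg_right h7 hY0) (mul_le_mul_of_nonneg_right h6 hT0)

end Pool.Agent.LO
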