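import Pool.Agent.Lib.MP_3e612f_nt.LO.BrunB

/-! The Brun-Hooley sieve, part C: the sum of `1/p` over `√z < p ≤ z` is bounded; recursion on the blocks. -/

set_option autoImplicit false

namespace Pool.Agent.LO

open Finset

/-- the primes `≤ z` -/
def pz (z : ℕ) : Finset ℕ := (Icc 1 z).filter Nat.Prime

theorem mem_pz {z p : ℕ} : p ∈ pz z ↔ p.Prime ∧ p ≤ z := by
  unfold pz
  rw [mem_filter, mem_Icc]
  exact ⟨fun h => ⟨h.2, h.1.2⟩, fun h => ⟨⟨h.1.one_le, h.2⟩, h.1⟩⟩

theorem psi_le6 (N : ℕ) : ∑ n ∈ Ioc 0 N, ArithmeticFunction.vonMangoldt n ≤ 6 * N := by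
  have h1 := Chebyshev.psi_le_const_mul_self (x := (N : ℝ)) (Nat.cast_nonneg _)
  unfold Chebyshev.psi at h1
  rw [Nat.floor_natCast] at h1
  refine h1.trans ?_
  apply mul_le_mul_of_nonneg_right _ (Nat.cast_nonneg _)
  have : Real.log 4 ≤ 2 := by
    have h2 : Real.log 4 = 2 * Real.log 2 := by
      rw [show (4 : ℝ) = 2 ^ 2 by norm_num, Real.log_pow]
      norm_num
    rw [h2]
    have := Real.log_two_lt_d9
    linarith
  linarith

open ArithmeticFunction in
open scoped ArithmeticFunction.zeta in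
/-- `∑_{n ≤ x} Λ(n)/n ≤ log x + 6`. -/
theorem mertens_vm {N : ℕ} (hN : 1 ≤ N) :
    ∑ n ∈ Ioc 0 N, ArithmeticFunction.vonMangoldt n / n ≤ Real.log N + 6 := by
  have hN0 : (0 : ℝ) < N := by exact_mod_cast hN
  have h1 : ∑ n ∈ Ioc 0 N, Real.log n = ∑ n ∈ Ioc 0 N, vonMangoldt n * ((N / n : ℕ) : ℝ) := by
    rw [← sum_Ioc_mul_zeta_eq_sum]
    refine Finset.sum_congr rfl fun n _ => ?_
    rw [vonMangoldt_mul_zeta, log_apply]
  have h2 : ∑ n ∈ Ioc 0 N, Real.log n ≤ N * Real.log N := by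
    refine (Finset.sum_le_card_nsmul _ _ (Real.log N) ?_).trans ?_
    · intro n hn
      rw [mem_Ioc] at hn
      exact Real.log_le_log (by exact_mod_cast hn.1) (by exact_mod_cast hn.2)
    · simp
  have h3 : N * ∑ n ∈ Ioc 0 N, vonMangoldt n / n - ∑ n ∈ Ioc 0 N, vonMangoldt n ≤
      ∑ n ∈ Ioc 0 N, vonMangoldt n * ((N / n : ℕ) : ℝ) := by
    rw [Finset.mul_sum, ← Finset.sum_sub_distrib]
    refine Finset.sum_le_sum fun n hn => ?_
    rw [mem_Ioc] at hn
    have hn0 : (0 : ℝ) < n := by exact_mod_cast hn.1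
    have h5 : (N : ℝ) / n ≤ ((N / n : ℕ) : ℝ) + 1 := by
      have := Nat.lt_div_mul_add (a := N) hn.1
      have h6 : (N : ℝ) < ((N / n : ℕ) : ℝ) * n + n := by exact_mod_cast this
      rw [div_le_iff₀ hn0]
      linarith
    have h6 : (0 : ℝ) ≤ vonMangoldt n := vonMangoldt_nonneg
    have h7 : (N : ℝ) * (vonMangoldt n / n) = vonMangoldt n * (N / n) := by ring
    rw [h7]
    nlinarith
  have h4 := psi_le6 N
  have h5 : (N : ℝ) * ∑ n ∈ Ioc 0 N, vonMangoldt n / n ≤ N * (Real.log N + 6) := by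
    nlinarith
  exact le_of_mul_le_mul_left h5 hN0

theorem mertens_log {N : ℕ} (hN : 1 ≤ N) :
    ∑ p ∈ pz N, Real.log p / p ≤ Real.log N + 6 := by
  refine le_trans ?_ (mertens_vm hN)
  calc ∑ p ∈ pz N, Real.log p / p = ∑ p ∈ pz N, ArithmeticFunction.vonMangoldt p / p := by
        refine Finset.sum_congr rfl fun p hp => ?_
        rw [ArithmeticFunction.vonMangoldt_apply_prime (mem_pz.1 hp).1]
    _ ≤ _ := by
        refine Finset.sum_le_sum_of_subset_of_nonneg ?_ fun n _ _ =>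
          div_nonneg ArithmeticFunction.vonMangoldt_nonneg (Nat.cast_nonneg _)
        intro p hp
        rw [mem_pz] at hp
        exact mem_Ioc.2 ⟨hp.1.pos, hp.2⟩

/-- the block of primes `√z < p ≤ z` -/
def bz (z : ℕ) : Finset ℕ := (pz z).filter fun p => Nat.sqrt z < p

theorem pz_split (z : ℕ) : pz z = pz (Nat.sqrt z) ∪ bz z := by
  ext p
  rw [mem_union, mem_pz, mem_pz, bz, mem_filter, mem_pz]
  have := Nat.sqrt_le_self z
  constructor
  · rintro ⟨h1, h2⟩
    by_cases h : Nat.sqrt z < p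
    · exact Or.inr ⟨⟨h1, h2⟩, h⟩
    · exact Or.inl ⟨h1, by omega⟩
  · rintro (h | h)
    · exact ⟨h.1, h.2.trans this⟩
    · exact h.1

theorem pz_disj (z : ℕ) : Disjoint (pz (Nat.sqrt z)) (bz z) := by
  rw [Finset.disjoint_left]
  intro p h1 h2
  rw [mem_pz] at h1
  rw [bz, mem_filter] at h2
  omega

theorem bz_sum {z : ℕ} (hz : 2 ≤ z) : ∑ p ∈ bz z, 1 / (p : ℝ) ≤ 20 := by
  have hzr : (2 : ℝ) ≤ z := by exact_mod_cast hz
  have hl : 0 < Real.log z := Real.log_pos (by linarith)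
  have hl2 : Real.log 2 ≤ Real.log z := Real.log_le_log (by norm_num) hzr
  have h2 := Real.log_two_gt_d9
  have h1 : ∀ p ∈ bz z, 1 / (p : ℝ) ≤ 2 / Real.log z * (Real.log p / p) := by
    intro p hp
    rw [bz, mem_filter, mem_pz] at hp
    have hp0 : (0 : ℝ) < p := by exact_mod_cast hp.1.1.pos
    have h3 : z < p * p := by
      have := Nat.sqrt_lt.1 hp.2
      exact this
    have h4 : (z : ℝ) ≤ (p : ℝ) ^ 2 := by
      have : (z : ℝ) < (p : ℝ) * p := by exact_mod_cast h3
      nlinarith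
    have h5 : Real.log z ≤ 2 * Real.log p := by
      have := Real.log_le_log (by linarith) h4
      rwa [Real.log_pow] at this
    rw [div_mul_div_comm, div_le_div_iff₀ hp0 (by positivity)]
    nlinarith
  calc ∑ p ∈ bz z, 1 / (p : ℝ) ≤ ∑ p ∈ bz z, 2 / Real.log z * (Real.log p / p) := Finset.sum_le_sum h1
    _ = 2 / Real.log z * ∑ p ∈ bz z, Real.log p / p := by rw [Finset.mul_sum]
    _ ≤ 2 / Real.log z * (Real.log z + 6) := by
        refine mul_le_mul_of_nonneg_left ?_ (by positivity)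
        refine le_trans ?_ (mertens_log (by omega : 1 ≤ z))
        refine Finset.sum_le_sum_of_subset_of_nonneg (Finset.filter_subset _ _) fun p hp _ => ?_
        rw [mem_pz] at hp
        exact div_nonneg (Real.log_nonneg (by exact_mod_cast hp.1.one_le)) (Nat.cast_nonneg _)
    _ ≤ 20 := by
        rw [div_mul_eq_mul_div, div_le_iff₀ hl]
        nlinarith

/-- `V(z) = ∏_{p ≤ z} (1 - 1/p)` -/
noncomputable def Vz (z : ℕ) : ℝ := ∏ p ∈ pz z, (1 - 1 / (p : ℝ))

theorem one_sub_ge {x : ℝ} (h0 : 0 ≤ x) (h1 : x ≤ 1 / 2) : Real.exp (-(2 * x)) ≤ 1 - x := by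
  have h2 : Real.exp (-(2 * x)) * Real.exp (2 * x) = 1 := by rw [← Real.exp_add]; simp
  have h3 : 1 + 2 * x ≤ Real.exp (2 * x) := by linarith [Real.add_one_le_exp (2 * x)]
  have h4 : 0 < Real.exp (2 * x) := Real.exp_pos _
  have h5 : 1 ≤ (1 - x) * Real.exp (2 * x) := by nlinarith
  have h6 : Real.exp (-(2 * x)) * Real.exp (2 * x) ≤ (1 - x) * Real.exp (2 * x) := by linarith
  exact le_of_mul_le_mul_right h6 h4

theorem bz_prod {z : ℕ} (hz : 2 ≤ z) : Real.exp (-40) ≤ ∏ p ∈ bz z, (1 - 1 / (p : ℝ)) := by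
  calc Real.exp (-40) ≤ Real.exp (∑ p ∈ bz z, -(2 * (1 / (p : ℝ)))) := by
        apply Real.exp_le_exp.2
        rw [Finset.sum_neg_distrib, ← Finset.mul_sum]
        linarith [bz_sum hz]
    _ = ∏ p ∈ bz z, Real.exp (-(2 * (1 / (p : ℝ)))) := Real.exp_sum _ _
    _ ≤ _ := by
        refine Finset.prod_le_prod (fun _ _ => (Real.exp_pos _).le) fun p hp => ?_
        rw [bz, mem_filter, mem_pz] at hp
        have h2 : (2 : ℝ) ≤ p := by exact_mod_cast hp.1.1.two_le
        exact one_sub_ge (by positivity) (one_div_le_one_div_of_le (by norm_num) h2)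

theorem Vz_nonneg (z : ℕ) : 0 ≤ Vz z := by
  unfold Vz
  refine Finset.prod_nonneg fun p hp => ?_
  rw [mem_pz] at hp
  have h2 : (1 : ℝ) ≤ p := by exact_mod_cast hp.1.one_le
  have : 1 / (p : ℝ) ≤ 1 := by rw [div_le_one (by linarith)]; exact h2
  linarith

/-- the constant -/
noncomputable def KB : ℝ := Real.exp 40 * Real.exp (20 * Real.exp 1)

theorem KB_pos : 0 < KB := by unfold KB; positivity

theorem es_small {z : ℕ} (hz : 2 ≤ z) (b : ℕ) :
    es (fun p => 1 / (p : ℝ)) (2 * b + 1) (bz z) ≤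
      KB * Real.exp (-(2 * b + 1 : ℝ)) * ∏ p ∈ bz z, (1 - 1 / (p : ℝ)) := by
  have h1 := es_le (x := fun p => 1 / (p : ℝ)) (S := bz z) (fun p _ => by positivity) (2 * b + 1)
  have h2 := bz_sum hz
  have h3 := bz_prod hz
  have h20 : (0 : ℝ) ≤ ∑ p ∈ bz z, 1 / (p : ℝ) := Finset.sum_nonneg fun p _ => by positivity
  have h4 : (∑ p ∈ bz z, 1 / (p : ℝ)) ^ (2 * b + 1) / ((2 * b + 1).factorial : ℝ) ≤
      (20 : ℝ) ^ (2 * b + 1) / ((2 * b + 1).factorial : ℝ) := by
    gcongr
  have h5 : (20 * Real.exp 1) ^ (2 * b + 1) / ((2 * b + 1).factorial : ℝ) ≤ Real.exp (20 * Real.exp 1) :=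
    Real.pow_div_factorial_le_exp _ (by positivity) _
  have h6 : (20 : ℝ) ^ (2 * b + 1) / ((2 * b + 1).factorial : ℝ) ≤
      Real.exp (20 * Real.exp 1) * Real.exp (-(2 * b + 1 : ℝ)) := by
    have e1 : Real.exp 1 ^ (2 * b + 1) * Real.exp (-(2 * b + 1 : ℝ)) = 1 := by
      rw [← Real.exp_nat_mul, ← Real.exp_add]
      push_cast
      rw [show ((2 * (b : ℝ) + 1) * 1 + -(2 * b + 1)) = 0 by ring, Real.exp_zero]
    have e2 : (20 : ℝ) ^ (2 * b + 1) / ((2 * b + 1).factorial : ℝ) =
        (20 * Real.exp 1) ^ (2 * b + 1) / ((2 * b + 1).factorial : ℝ) * Real.exp (-(2 * b + 1 : ℝ)) := by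
      rw [mul_pow]
      calc (20 : ℝ) ^ (2 * b + 1) / ((2 * b + 1).factorial : ℝ) =
          (20 : ℝ) ^ (2 * b + 1) / ((2 * b + 1).factorial : ℝ) *
            (Real.exp 1 ^ (2 * b + 1) * Real.exp (-(2 * b + 1 : ℝ))) := by rw [e1, mul_one]
        _ = _ := by ring
    rw [e2]
    exact mul_le_mul_of_nonneg_right h5 (Real.exp_pos _).le
  have h7 : (1 : ℝ) ≤ Real.exp 40 * ∏ p ∈ bz z, (1 - 1 / (p : ℝ)) := by
    calc (1 : ℝ) = Real.exp 40 * Real.exp (-40) := by rw [← Real.exp_add]; simp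
      _ ≤ _ := mul_le_mul_of_nonneg_left h3 (Real.exp_pos _).le
  have h8 : 0 < Real.exp (20 * Real.exp 1) * Real.exp (-(2 * b + 1 : ℝ)) := by positivity
  calc es (fun p => 1 / (p : ℝ)) (2 * b + 1) (bz z) ≤ _ := h1
    _ ≤ _ := h4
    _ ≤ _ := h6
    _ = Real.exp (20 * Real.exp 1) * Real.exp (-(2 * b + 1 : ℝ)) * 1 := by ring
    _ ≤ Real.exp (20 * Real.exp 1) * Real.exp (-(2 * b + 1 : ℝ)) *
        (Real.exp 40 * ∏ p ∈ bz z, (1 - 1 / (p : ℝ))) := mul_le_mul_of_nonneg_left h7 h8.le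
    _ = _ := by unfold KB; ring

theorem HasSW.mono {S : Finset ℕ} {D D' : ℕ} {M M' R R' : ℝ} (h : HasSW S D M R) (hD : D ≤ D') (hM : M ≤ M')
    (hR : R ≤ R') : HasSW S D' M' R' := by
  obtain ⟨lp, le, h1, h2, h3, h4, h5, h6, h7⟩ := h
  exact ⟨lp, le, h1, h2, fun A hA hne => (h3 A hA hne).trans hD, h4, h5, h6.trans hM, h7.trans hR⟩

/-- **The Brun-Hooley sieve**, in terms of sets of primes. -/
theorem brun_sw (z b : ℕ) (hz : 1 ≤ z) :
    HasSW (pz z) (z ^ (4 * b + 6)) (Vz z * Real.exp (KB * Real.exp (-(2 * b : ℝ))))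
      (Vz z * (KB * Real.exp (-(2 * b : ℝ))) * Real.exp (KB * Real.exp (-(2 * b : ℝ)))) := by
  induction z using Nat.strong_induction_on generalizing b with
  | _ z ih =>
    by_cases hz1 : z = 1
    · subst hz1
      have e : pz 1 = ∅ := by
        ext p
        rw [mem_pz]
        constructor
        · rintro ⟨h1, h2⟩
          have := h1.two_le
          omega
        · intro h; simp at h
      have eV : Vz 1 = 1 := by unfold Vz; rw [e]; simp
      rw [e, eV]
      refine hasSW_empty.mono (by simp) ?_ ?_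
      · rw [one_mul]
        have := mul_pos KB_pos (Real.exp_pos (-(2 * b : ℝ)))
        exact Real.one_le_exp this.le
      · have := KB_pos
        positivity
    · have hz2 : 2 ≤ z := by omega
      have hs1 : 1 ≤ Nat.sqrt z := Nat.sqrt_pos.2 (by omega)
      have hsl : Nat.sqrt z < z := Nat.sqrt_lt_self (by omega)
      have h := hasSW_step (ih (Nat.sqrt z) hsl (b + 1) hs1) (pz_disj z) (Z := z) (fun p hp => by
        rw [bz, mem_filter, mem_pz] at hp
        exact ⟨hp.1.1.one_le, hp.1.2⟩) hz b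
      rw [← pz_split] at h
      set v := ∏ p ∈ bz z, (1 - 1 / (p : ℝ)) with hv
      have hVV : Vz z = Vz (Nat.sqrt z) * v := by
        unfold Vz
        rw [pz_split z, Finset.prod_union (pz_disj z)]
      have hv0 : 0 < v := lt_of_lt_of_le (Real.exp_pos _) (bz_prod hz2)
      have hV0 := Vz_nonneg (Nat.sqrt z)
      set V := Vz (Nat.sqrt z) with hV
      set k := KB * Real.exp (-(2 * b + 1 : ℝ)) with hk
      have hk0 : 0 ≤ k := by have := KB_pos; positivity
      have hes : es (fun p => 1 / (p : ℝ)) (2 * b + 1) (bz z) ≤ k * v := es_small hz2 b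
      have hbf := odd_bonf (x := fun p : ℕ => 1 / (p : ℝ)) (S := bz z) (fun p _ => by positivity)
        (fun p hp => by
          rw [bz, mem_filter, mem_pz] at hp
          have h2 : (1 : ℝ) ≤ p := by exact_mod_cast hp.1.1.one_le
          show 1 / (p : ℝ) ≤ 1
          rw [div_le_one (by linarith)]; exact h2) b
      have htr : tr (fun p => 1 / (p : ℝ)) (2 * b + 1) (bz z) ≤ v * (1 + k) := by
        have := hbf.2
        have e : ∏ p ∈ bz z, (1 - (fun p : ℕ => 1 / (p : ℝ)) p) = v := rfl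
        rw [e] at this
        nlinarith
      have hes0 := es_nonneg (x := fun p : ℕ => 1 / (p : ℝ)) (S := bz z) (fun p _ => by positivity) (2 * b + 1)
      have htr0 : 0 ≤ tr (fun p => 1 / (p : ℝ)) (2 * b + 1) (bz z) := hv0.le.trans hbf.1
      set s := KB * Real.exp (-(2 * ((b + 1 : ℕ) : ℝ))) with hs
      have hs0 : 0 ≤ s := by have := KB_pos; positivity
      set s' := KB * Real.exp (-(2 * b : ℝ)) with hs'
      have hss : s + k ≤ s' := by
        have e1 : s = s' * Real.exp (-2) := by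
          rw [hs, hs', mul_assoc, ← Real.exp_add]; push_cast; ring_nf
        have e2 : k = s' * Real.exp (-1) := by
          rw [hk, hs', mul_assoc, ← Real.exp_add]; ring_nf
        have hs'0 : 0 ≤ s' := by have := KB_pos; positivity
        have e3 : Real.exp (-1) ≤ 1 / 2 := by
          have h1 : (2 : ℝ) ≤ Real.exp 1 := by linarith [Real.add_one_le_exp (1 : ℝ)]
          rw [Real.exp_neg, ← one_div]
          exact one_div_le_one_div_of_le (by norm_num) h1
        have e4 : Real.exp (-2) = Real.exp (-1) * Real.exp (-1) := by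
          rw [← Real.exp_add]; norm_num
        have e5 := Real.exp_pos (-1)
        rw [e1, e2, e4]
        nlinarith
      have h1k : 1 + k ≤ Real.exp k := by linarith [Real.add_one_le_exp k]
      have hs'0 : 0 ≤ s' := (add_nonneg hs0 hk0).trans hss
      refine h.mono ?_ ?_ ?_
      · have h1 : Nat.sqrt z * Nat.sqrt z ≤ z := Nat.sqrt_le z
        calc Nat.sqrt z ^ (4 * (b + 1) + 6) * z ^ (2 * b + 1) =
            (Nat.sqrt z * Nat.sqrt z) ^ (2 * b + 5) * z ^ (2 * b + 1) := by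
              rw [← pow_two, ← pow_mul]; ring_nf
          _ ≤ z ^ (2 * b + 5) * z ^ (2 * b + 1) := Nat.mul_le_mul_right _ (Nat.pow_le_pow_left h1 _)
          _ = z ^ (4 * b + 6) := by rw [← pow_add]; ring_nf
      · rw [hVV]
        calc V * Real.exp s * tr (fun p => 1 / (p : ℝ)) (2 * b + 1) (bz z) ≤
            V * Real.exp s * (v * (1 + k)) := mul_le_mul_of_nonneg_left htr (by positivity)
          _ ≤ V * Real.exp s * (v * Real.exp k) := by gcongr
          _ = V * v * Real.exp (s + k) := by rw [Real.exp_add]; ring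
          _ ≤ V * v * Real.exp s' := by gcongr
      · rw [hVV]
        calc V * s * Real.exp s * tr (fun p => 1 / (p : ℝ)) (2 * b + 1) (bz z) +
            V * Real.exp s * es (fun p => 1 / (p : ℝ)) (2 * b + 1) (bz z) ≤
            V * s * Real.exp s * (v * (1 + k)) + V * Real.exp s * (k * v) :=
              add_le_add (mul_le_mul_of_nonneg_left htr (by positivity))
                (mul_le_mul_of_nonneg_left hes (by positivity))
          _ ≤ V * v * ((s + k) * Real.exp s * (1 + k)) := by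
              have : 0 ≤ V * v * Real.exp s * (k * k) := by positivity
              nlinarith
          _ ≤ V * v * ((s + k) * Real.exp s * Real.exp k) := by gcongr
          _ = V * v * (s + k) * Real.exp (s + k) := by rw [Real.exp_add]; ring
          _ ≤ V * v * s' * Real.exp s' := by
              refine mul_le_mul ?_ (Real.exp_le_exp.2 hss) (Real.exp_pos _).le (by positivity)
              exact mul_le_mul_of_nonneg_left hss (by positivity)

end Pool.Agent.LO
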