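import Mathlib

/-!
# Moment lemma (arithmetic half of the iteration step)

`Om PP n` is the number of prime factors of `n` from `PP`, with multiplicity.
* `card_tuples_le`: the number of ordered `l`-tuples of elements of `PP` whose
  product divides `n` is at most `(Om PP n).descFactorial l`.
* `moment`: second moment of the coefficients of `Q^l R`.
* `sum_two_pow_Om`: mean value of `2 ^ Om PP m`.
-/

namespace Pool.Agent.LO

open Finset

/-- number of prime factors of `n` from `PP`, with multiplicity -/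
def Om (PP : Finset ℕ) (n : ℕ) : ℕ := ∑ p ∈ PP, n.factorization p

theorem Om_mul (PP : Finset ℕ) {a b : ℕ} (ha : a ≠ 0) (hb : b ≠ 0) :
    Om PP (a * b) = Om PP a + Om PP b := by
  simp [Om, Nat.factorization_mul ha hb, sum_add_distrib]

theorem Om_prime {PP : Finset ℕ} {p : ℕ} (hp : p.Prime) (hm : p ∈ PP) : Om PP p = 1 := by
  simp [Om, hp.factorization, Finsupp.single_apply, hm]

theorem Om_one (PP : Finset ℕ) : Om PP 1 = 0 := by
  simp [Om]

theorem card_dvd_le {PP : Finset ℕ} (hPP : ∀ p ∈ PP, p.Prime) {n : ℕ} (hn : n ≠ 0) :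
    (PP.filter (fun p => p ∣ n)).card ≤ Om PP n := by
  classical
  rw [Finset.card_filter]
  unfold Om
  apply Finset.sum_le_sum
  intro p hp
  split_ifs with h
  · exact (hPP p hp).factorization_pos_of_dvd hn h
  · exact Nat.zero_le _

/-- ordered `l`-tuples of elements of `PP` -/
def tup (PP : Finset ℕ) (l : ℕ) : Finset (Fin l → ℕ) := Fintype.piFinset (fun _ => PP)

theorem mem_tup {PP : Finset ℕ} {l : ℕ} {f : Fin l → ℕ} : f ∈ tup PP l ↔ ∀ i, f i ∈ PP := by
  simp [tup]

theorem card_tuples_le {PP : Finset ℕ} (hPP : ∀ p ∈ PP, p.Prime) (l : ℕ) :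
    ∀ {n : ℕ}, n ≠ 0 →
      ((tup PP l).filter (fun f => (∏ i, f i) ∣ n)).card ≤ (Om PP n).descFactorial l := by
  classical
  induction l with
  | zero =>
    intro n hn
    refine (card_filter_le _ _).trans ?_
    simp [tup]
  | succ l ih =>
    intro n hn
    have hmap : ∀ f ∈ (tup PP (l + 1)).filter (fun f => (∏ i, f i) ∣ n),
        f 0 ∈ PP.filter (fun p => p ∣ n) := by
      intro f hf
      rw [mem_filter, mem_tup] at hf
      rw [mem_filter]
      refine ⟨hf.1 0, ?_⟩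
      exact (Finset.dvd_prod_of_mem f (mem_univ 0)).trans hf.2
    rw [card_eq_sum_card_fiberwise hmap]
    have hfib : ∀ p ∈ PP.filter (fun p => p ∣ n),
        (((tup PP (l + 1)).filter (fun f => (∏ i, f i) ∣ n)).filter (fun f => f 0 = p)).card
          ≤ (Om PP n - 1).descFactorial l := by
      intro p hp
      rw [mem_filter] at hp
      have hpp := hPP p hp.1
      obtain ⟨k, rfl⟩ := hp.2
      have hk : k ≠ 0 := by
        rintro rfl
        exact hn (by simp)
      have hOm : Om PP (p * k) - 1 = Om PP k := by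
        rw [Om_mul PP hpp.ne_zero hk, Om_prime hpp hp.1]
        omega
      rw [hOm]
      refine le_trans ?_ (ih hk)
      refine Finset.card_le_card_of_injOn (fun f => Fin.tail f) ?_ ?_
      · intro f hf
        simp only [coe_filter, Set.mem_setOf_eq, mem_filter, mem_tup] at hf ⊢
        refine ⟨fun i => hf.1.1 i.succ, ?_⟩
        have h1 := hf.1.2
        rw [Fin.prod_univ_succ, hf.2] at h1
        exact Nat.dvd_of_mul_dvd_mul_left hpp.pos h1
      · intro f hf g hg hfg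
        simp only [coe_filter, Set.mem_setOf_eq, mem_filter, mem_tup] at hf hg
        have h0 : f 0 = g 0 := by rw [hf.2, hg.2]
        have h1 : Fin.tail f = Fin.tail g := hfg
        rw [← Fin.cons_self_tail f, ← Fin.cons_self_tail g, h0, h1]
    refine (Finset.sum_le_sum hfib).trans ?_
    rw [sum_const, smul_eq_mul]
    rcases Nat.eq_zero_or_pos (Om PP n) with h0 | h0
    · have := card_dvd_le hPP hn
      rw [h0] at this
      have h1 : (PP.filter (fun p => p ∣ n)).card = 0 := by omega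
      rw [h1]
      simp
    · obtain ⟨m, hm⟩ : ∃ m, Om PP n = m + 1 := ⟨Om PP n - 1, by omega⟩
      rw [hm, Nat.succ_descFactorial_succ]
      have := card_dvd_le hPP hn
      rw [hm] at this
      simpa using Nat.mul_le_mul_right (m.descFactorial l) this

theorem descFactorial_add_le (l k : ℕ) :
    ((l + k).descFactorial l : ℕ) ≤ l.factorial * 2 ^ (l + k) := by
  rw [Nat.descFactorial_eq_factorial_mul_choose]
  exact Nat.mul_le_mul_left _ (Nat.choose_le_two_pow _ _)

theorem prod_tup_ne_zero {PP : Finset ℕ} (hPP : ∀ p ∈ PP, p.Prime) {l : ℕ} {f : Fin l → ℕ}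
    (hf : f ∈ tup PP l) : (∏ i, f i) ≠ 0 := by
  rw [mem_tup] at hf
  exact Finset.prod_ne_zero_iff.mpr fun i _ => (hPP _ (hf i)).ne_zero

theorem Om_prod_tup {PP : Finset ℕ} (hPP : ∀ p ∈ PP, p.Prime) {l : ℕ} {f : Fin l → ℕ}
    (hf : f ∈ tup PP l) : Om PP (∏ i, f i) = l := by
  induction l with
  | zero => simp [Om_one]
  | succ l ih =>
    rw [Fin.prod_univ_succ]
    have h1 : (fun i : Fin l => f i.succ) ∈ tup PP l := by
      rw [mem_tup] at hf ⊢
      exact fun i => hf i.succ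
    have h2 := ih h1
    rw [mem_tup] at hf
    rw [Om_mul PP (hPP _ (hf 0)).ne_zero (prod_tup_ne_zero hPP h1), h2,
      Om_prime (hPP _ (hf 0)) (hf 0)]
    omega

/-- the coefficients of `(∑ a_p p^{-s})^l (∑ b_m m^{-s})` -/
noncomputable def cf (PP S : Finset ℕ) (l : ℕ) (a b : ℕ → ℂ) (n : ℕ) : ℂ :=
  ∑ x ∈ (tup PP l ×ˢ S).filter (fun x => (∏ i, x.1 i) * x.2 = n), (∏ i, a (x.1 i)) * b x.2

/-- number of representations -/
theorem card_rep_le {PP S : Finset ℕ} (hPP : ∀ p ∈ PP, p.Prime) (hS : ∀ m ∈ S, m ≠ 0) {l : ℕ}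
    {x : (Fin l → ℕ) × ℕ} (hx : x ∈ tup PP l ×ˢ S) :
    ((tup PP l ×ˢ S).filter (fun y => (∏ i, y.1 i) * y.2 = (∏ i, x.1 i) * x.2)).card
      ≤ l.factorial * 2 ^ (l + Om PP x.2) := by
  classical
  rw [mem_product] at hx
  have h1 := prod_tup_ne_zero hPP hx.1
  have h2 := hS _ hx.2
  have hn : (∏ i, x.1 i) * x.2 ≠ 0 := Nat.mul_ne_zero h1 h2
  refine le_trans ?_ (descFactorial_add_le l (Om PP x.2))
  have h3 := card_tuples_le hPP l hn
  rw [Om_mul PP h1 h2, Om_prod_tup hPP hx.1] at h3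
  refine le_trans ?_ h3
  refine Finset.card_le_card_of_injOn (fun y => y.1) ?_ ?_
  · intro y hy
    simp only [coe_filter, mem_product, Set.mem_setOf_eq] at hy ⊢
    exact ⟨hy.1.1, ⟨y.2, hy.2.symm⟩⟩
  · intro y hy z hz hyz
    simp only [coe_filter, mem_product, Set.mem_setOf_eq] at hy hz
    have h4 : y.1 = z.1 := hyz
    have h5 := prod_tup_ne_zero hPP hy.1.1
    have h6 : (∏ i, y.1 i) * y.2 = (∏ i, y.1 i) * z.2 := by
      rw [hy.2, ← hz.2, h4]
    exact Prod.ext h4 (Nat.eq_of_mul_eq_mul_left (Nat.pos_of_ne_zero h5) h6)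

theorem moment {PP S N : Finset ℕ} (hPP : ∀ p ∈ PP, p.Prime) (hS : ∀ m ∈ S, m ≠ 0) (l : ℕ)
    (a b : ℕ → ℂ) (w : ℕ → ℝ) (hw : ∀ n, 0 ≤ w n) :
    ∑ n ∈ N, w n * ‖cf PP S l a b n‖ ^ 2
      ≤ (l.factorial : ℝ) * 2 ^ l * ∑ f ∈ tup PP l, ∑ m ∈ S,
          w ((∏ i, f i) * m) * (∏ i, ‖a (f i)‖ ^ 2) * (‖b m‖ ^ 2 * 2 ^ Om PP m) := by
  classical
  set D := tup PP l ×ˢ S with hD
  -- pointwise bound
  have h1 : ∀ n, ‖cf PP S l a b n‖ ^ 2
      ≤ ∑ x ∈ D.filter (fun x => (∏ i, x.1 i) * x.2 = n),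
          (l.factorial : ℝ) * 2 ^ (l + Om PP x.2) * ((∏ i, ‖a (x.1 i)‖ ^ 2) * ‖b x.2‖ ^ 2) := by
    intro n
    have e1 : ‖cf PP S l a b n‖ ≤ ∑ x ∈ D.filter (fun x => (∏ i, x.1 i) * x.2 = n),
        (∏ i, ‖a (x.1 i)‖) * ‖b x.2‖ := by
      unfold cf
      refine (norm_sum_le _ _).trans (le_of_eq ?_)
      refine Finset.sum_congr rfl fun x _ => ?_
      rw [norm_mul, norm_prod]
    have e2 : (∑ x ∈ D.filter (fun x => (∏ i, x.1 i) * x.2 = n),
        (∏ i, ‖a (x.1 i)‖) * ‖b x.2‖) ^ 2 ≤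
        ((D.filter (fun x => (∏ i, x.1 i) * x.2 = n)).card : ℝ) *
          ∑ x ∈ D.filter (fun x => (∏ i, x.1 i) * x.2 = n),
            ((∏ i, ‖a (x.1 i)‖) * ‖b x.2‖) ^ 2 := sq_sum_le_card_mul_sum_sq
    refine (pow_le_pow_left₀ (norm_nonneg _) e1 2).trans (e2.trans ?_)
    rw [Finset.mul_sum]
    apply Finset.sum_le_sum
    intro x hx
    rw [mem_filter] at hx
    have e3 := card_rep_le hPP hS hx.1
    rw [hx.2] at e3
    have e4 : ((D.filter (fun x => (∏ i, x.1 i) * x.2 = n)).card : ℝ)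
        ≤ (l.factorial : ℝ) * 2 ^ (l + Om PP x.2) := by
      exact_mod_cast e3
    have e5 : ((∏ i, ‖a (x.1 i)‖) * ‖b x.2‖) ^ 2 = (∏ i, ‖a (x.1 i)‖ ^ 2) * ‖b x.2‖ ^ 2 := by
      rw [mul_pow, Finset.prod_pow]
    rw [e5]
    exact mul_le_mul_of_nonneg_right e4 (by positivity)
  calc ∑ n ∈ N, w n * ‖cf PP S l a b n‖ ^ 2
      ≤ ∑ n ∈ N, ∑ x ∈ D.filter (fun x => (∏ i, x.1 i) * x.2 = n),
          w ((∏ i, x.1 i) * x.2) * ((l.factorial : ℝ) * 2 ^ (l + Om PP x.2) *
            ((∏ i, ‖a (x.1 i)‖ ^ 2) * ‖b x.2‖ ^ 2)) := by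
        apply Finset.sum_le_sum
        intro n _
        refine (mul_le_mul_of_nonneg_left (h1 n) (hw n)).trans (le_of_eq ?_)
        rw [Finset.mul_sum]
        refine Finset.sum_congr rfl fun x hx => ?_
        rw [mem_filter] at hx
        rw [hx.2]
    _ ≤ ∑ x ∈ D, w ((∏ i, x.1 i) * x.2) * ((l.factorial : ℝ) * 2 ^ (l + Om PP x.2) *
            ((∏ i, ‖a (x.1 i)‖ ^ 2) * ‖b x.2‖ ^ 2)) := by
        have hmaps : ∀ x ∈ D, (fun x : (Fin l → ℕ) × ℕ => (∏ i, x.1 i) * x.2) x ∈
            N ∪ D.image (fun x : (Fin l → ℕ) × ℕ => (∏ i, x.1 i) * x.2) := fun x hx =>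
          Finset.mem_union_right _ (Finset.mem_image_of_mem _ hx)
        rw [← Finset.sum_fiberwise_of_maps_to hmaps]
        apply Finset.sum_le_sum_of_subset_of_nonneg Finset.subset_union_left
        intro n _ _
        apply Finset.sum_nonneg
        intro x _
        have := hw ((∏ i, x.1 i) * x.2)
        positivity
    _ = (l.factorial : ℝ) * 2 ^ l * ∑ f ∈ tup PP l, ∑ m ∈ S,
          w ((∏ i, f i) * m) * (∏ i, ‖a (f i)‖ ^ 2) * (‖b m‖ ^ 2 * 2 ^ Om PP m) := by
        rw [hD, Finset.sum_product, Finset.mul_sum]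
        refine Finset.sum_congr rfl fun f _ => ?_
        rw [Finset.mul_sum]
        refine Finset.sum_congr rfl fun m _ => ?_
        rw [pow_add]
        ring

/-- sum over tuples of a product -/
theorem sum_tup_prod (PP : Finset ℕ) (l : ℕ) (g : ℕ → ℝ) :
    ∑ f ∈ tup PP l, ∏ i, g (f i) = (∑ p ∈ PP, g p) ^ l := by
  classical
  unfold tup
  rw [Finset.sum_prod_piFinset]
  simp

/-- the moment lemma with a completely multiplicative weight `n ↦ n ^ κ` -/
theorem moment_one {PP S N : Finset ℕ} (hPP : ∀ p ∈ PP, p.Prime) (hS : ∀ m ∈ S, m ≠ 0) (l : ℕ)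
    (a b : ℕ → ℂ) :
    ∑ n ∈ N, ‖cf PP S l a b n‖ ^ 2
      ≤ (l.factorial : ℝ) * 2 ^ l * ((∑ p ∈ PP, ‖a p‖ ^ 2) ^ l *
          ∑ m ∈ S, ‖b m‖ ^ 2 * 2 ^ Om PP m) := by
  have h := moment (N := N) hPP hS l a b (fun _ => 1) (fun _ => zero_le_one)
  simp only [one_mul] at h
  refine h.trans (le_of_eq ?_)
  congr 1
  rw [← sum_tup_prod PP l (fun p => ‖a p‖ ^ 2), Finset.sum_mul]
  refine Finset.sum_congr rfl fun f _ => ?_
  rw [Finset.mul_sum]

theorem moment_id {PP S N : Finset ℕ} (hPP : ∀ p ∈ PP, p.Prime) (hS : ∀ m ∈ S, m ≠ 0) (l : ℕ)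
    (a b : ℕ → ℂ) :
    ∑ n ∈ N, (n : ℝ) * ‖cf PP S l a b n‖ ^ 2
      ≤ (l.factorial : ℝ) * 2 ^ l * ((∑ p ∈ PP, (p : ℝ) * ‖a p‖ ^ 2) ^ l *
          ∑ m ∈ S, (m : ℝ) * (‖b m‖ ^ 2 * 2 ^ Om PP m)) := by
  have h := moment (N := N) hPP hS l a b (fun n => (n : ℝ)) (fun _ => Nat.cast_nonneg _)
  refine h.trans (le_of_eq ?_)
  congr 1
  rw [← sum_tup_prod PP l (fun p => (p : ℝ) * ‖a p‖ ^ 2), Finset.sum_mul]
  refine Finset.sum_congr rfl fun f _ => ?_
  rw [Finset.mul_sum]
  refine Finset.sum_congr rfl fun m _ => ?_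
  rw [Finset.prod_mul_distrib]
  push_cast
  ring

/-- mean value of `2 ^ Om PP m` -/
theorem sum_two_pow_Om (PP : Finset ℕ) (hPP : ∀ p ∈ PP, p.Prime ∧ 3 ≤ p) :
    ∀ Y : ℕ, (∑ m ∈ Icc 1 Y, (2 : ℝ) ^ Om PP m) ≤ Y * Real.exp (6 * ∑ p ∈ PP, (1 : ℝ) / p) := by
  classical
  induction PP using Finset.induction_on with
  | empty =>
    intro Y
    simp [Om]
  | insert q PP hq ih =>
    have ih' := ih (fun p hp => hPP p (Finset.mem_insert_of_mem hp))
    obtain ⟨hqp, hq3⟩ := hPP q (Finset.mem_insert_self _ _)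
    set G := Real.exp (6 * ∑ p ∈ PP, (1 : ℝ) / p) with hG
    have hGpos : 0 < G := Real.exp_pos _
    have hq3' : (3 : ℝ) ≤ q := by exact_mod_cast hq3
    have hOm : ∀ m, Om (insert q PP) m = m.factorization q + Om PP m := by
      intro m
      unfold Om
      rw [Finset.sum_insert hq]
    -- recursion
    have key : ∀ Y : ℕ, (∑ m ∈ Icc 1 Y, (2 : ℝ) ^ Om (insert q PP) m)
        ≤ Y * (G * (q / (q - 2))) := by
      intro Y
      induction Y using Nat.strong_induction_on with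
      | _ Y ihY =>
        rcases Nat.eq_zero_or_pos Y with rfl | hY
        · simp
        -- split by divisibility by q
        have hsplit : (∑ m ∈ Icc 1 Y, (2 : ℝ) ^ Om (insert q PP) m)
            = (∑ m ∈ (Icc 1 Y).filter (fun m => ¬ q ∣ m), (2 : ℝ) ^ Om (insert q PP) m)
              + ∑ m ∈ (Icc 1 Y).filter (fun m => q ∣ m), (2 : ℝ) ^ Om (insert q PP) m := by
          rw [add_comm]
          exact (Finset.sum_filter_add_sum_filter_not _ _ _).symm
        have h1 : (∑ m ∈ (Icc 1 Y).filter (fun m => ¬ q ∣ m), (2 : ℝ) ^ Om (insert q PP) m)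
            ≤ Y * G := by
          refine le_trans ?_ (ih' Y)
          have : (∑ m ∈ (Icc 1 Y).filter (fun m => ¬ q ∣ m), (2 : ℝ) ^ Om (insert q PP) m)
              = ∑ m ∈ (Icc 1 Y).filter (fun m => ¬ q ∣ m), (2 : ℝ) ^ Om PP m := by
            refine Finset.sum_congr rfl fun m hm => ?_
            rw [mem_filter] at hm
            rw [hOm, Nat.factorization_eq_zero_of_not_dvd hm.2, zero_add]
          rw [this]
          exact Finset.sum_le_sum_of_subset_of_nonneg (Finset.filter_subset _ _)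
            (fun _ _ _ => by positivity)
        have h2 : (∑ m ∈ (Icc 1 Y).filter (fun m => q ∣ m), (2 : ℝ) ^ Om (insert q PP) m)
            = 2 * ∑ m ∈ Icc 1 (Y / q), (2 : ℝ) ^ Om (insert q PP) m := by
          rw [Finset.mul_sum]
          symm
          refine Finset.sum_bij (fun m _ => q * m) ?_ ?_ ?_ ?_
          · intro m hm
            rw [mem_Icc] at hm
            rw [mem_filter, mem_Icc]
            refine ⟨⟨?_, ?_⟩, Dvd.intro _ rfl⟩
            · exact Nat.mul_pos hqp.pos (by omega)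
            · rw [mul_comm]
              exact (Nat.le_div_iff_mul_le hqp.pos).mp hm.2
          · intro m _ m' _ h
            exact Nat.eq_of_mul_eq_mul_left hqp.pos h
          · intro m hm
            rw [mem_filter, mem_Icc] at hm
            obtain ⟨k, rfl⟩ := hm.2
            refine ⟨k, ?_, rfl⟩
            rw [mem_Icc]
            constructor
            · rcases Nat.eq_zero_or_pos k with rfl | hk
              · simp at hm
              · exact hk
            · rw [Nat.le_div_iff_mul_le hqp.pos, mul_comm]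
              exact hm.1.2
          · intro m hm
            rw [mem_Icc] at hm
            rw [Om_mul _ hqp.ne_zero (by omega : m ≠ 0),
              Om_prime hqp (Finset.mem_insert_self _ _), pow_add, pow_one]
        rw [hsplit, h2]
        have h3 := ihY (Y / q) (Nat.div_lt_self hY (by omega))
        have h4 : ((Y / q : ℕ) : ℝ) ≤ (Y : ℝ) / q := Nat.cast_div_le
        have hq2 : (0 : ℝ) < q - 2 := by linarith
        have h5 : (∑ m ∈ Icc 1 (Y / q), (2 : ℝ) ^ Om (insert q PP) m)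
            ≤ (Y : ℝ) / q * (G * (q / (q - 2))) :=
          h3.trans (mul_le_mul_of_nonneg_right h4 (by positivity))
        have h6 : (Y : ℝ) * G + 2 * ((Y : ℝ) / q * (G * (q / (q - 2)))) = Y * (G * (q / (q - 2))) := by
          field_simp
          ring
        rw [← h6]
        exact add_le_add h1 (mul_le_mul_of_nonneg_left h5 (by norm_num))
    intro Y
    refine (key Y).trans ?_
    rw [Finset.sum_insert hq, mul_add, Real.exp_add, ← hG, mul_comm G]
    refine mul_le_mul_of_nonneg_left (mul_le_mul_of_nonneg_right ?_ hGpos.le) (Nat.cast_nonneg _)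
    have hq2 : (0 : ℝ) < q - 2 := by linarith
    have h7 : (q : ℝ) / (q - 2) ≤ 1 + 6 * (1 / q) := by
      rw [div_le_iff₀ hq2]
      have hq0 : (0 : ℝ) < q := by linarith
      have : (1 + 6 * (1 / (q : ℝ))) * (q - 2) = q + 4 - 12 / q := by
        field_simp
        ring
      rw [this]
      have h8 : 12 / (q : ℝ) ≤ 4 := by
        rw [div_le_iff₀ hq0]
        linarith
      linarith
    refine h7.trans ?_
    rw [add_comm]
    exact Real.add_one_le_exp _

end Pool.Agent.LO
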