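import Pool.Agent.Lib.MP_3e612f_nt.Loc.KthA

/-! The sparse mean value (large values) by duality: abstract form. -/

set_option autoImplicit false

namespace Pool.Agent.LO

open Finset Pool.Agent.Lib.MP_3e612f_nt.Loc

/-- the kernel -/
noncomputable def Gk (S : Finset ℕ) (g : ℕ → ℝ) (u : ℝ) : ℂ := ∑ n ∈ S, (g n : ℂ) * E (u * Real.log n)

/-- the Dirichlet polynomial `∑ a_n n^{-it}` -/
noncomputable def Dp (S : Finset ℕ) (a : ℕ → ℂ) (t : ℝ) : ℂ := ∑ n ∈ S, a n * E (-(t * Real.log n))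

theorem Gk_neg (S : Finset ℕ) (g : ℕ → ℝ) (u : ℝ) : ‖Gk S g (-u)‖ = ‖Gk S g u‖ := by
  have h : Gk S g (-u) = (starRingEnd ℂ) (Gk S g u) := by
    unfold Gk
    rw [map_sum]
    refine Finset.sum_congr rfl fun n _ => ?_
    rw [map_mul, ← E_neg, Complex.conj_ofReal, neg_mul]
  rw [h, RCLike.norm_conj]

/-- duality -/
theorem duality {S S' : Finset ℕ} {U : Finset ℝ} (hS : S ⊆ S') {a : ℕ → ℂ} {g : ℕ → ℝ}
    (hg0 : ∀ n ∈ S', 0 ≤ g n) (hg1 : ∀ n ∈ S, 1 ≤ g n) {M : ℝ} (hM0 : 0 ≤ M)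
    (hM : ∀ t ∈ U, ∑ t' ∈ U, ‖Gk S' g (t' - t)‖ ≤ M) :
    ∑ t ∈ U, ‖Dp S a t‖ ^ 2 ≤ M * ∑ n ∈ S, ‖a n‖ ^ 2 := by
  set Z := ∑ t ∈ U, ‖Dp S a t‖ ^ 2 with hZ
  have hZ0 : 0 ≤ Z := Finset.sum_nonneg fun _ _ => sq_nonneg _
  set B : ℕ → ℂ := fun n => ∑ t ∈ U, (starRingEnd ℂ) (Dp S a t) * E (-(t * Real.log n)) with hB
  have h1 : (Z : ℂ) = ∑ n ∈ S, a n * B n := by
    rw [hZ]
    push_cast
    calc ∑ t ∈ U, ((‖Dp S a t‖ : ℂ)) ^ 2 = ∑ t ∈ U, (starRingEnd ℂ) (Dp S a t) * Dp S a t := by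
          refine Finset.sum_congr rfl fun t _ => ?_
          rw [mul_comm, Complex.mul_conj, Complex.normSq_eq_norm_sq]
          push_cast; rfl
      _ = ∑ t ∈ U, ∑ n ∈ S, (starRingEnd ℂ) (Dp S a t) * (a n * E (-(t * Real.log n))) := by
          refine Finset.sum_congr rfl fun t _ => ?_
          rw [← Finset.mul_sum]; rfl
      _ = ∑ n ∈ S, ∑ t ∈ U, (starRingEnd ℂ) (Dp S a t) * (a n * E (-(t * Real.log n))) := Finset.sum_comm
      _ = ∑ n ∈ S, a n * B n := by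
          refine Finset.sum_congr rfl fun n _ => ?_
          rw [hB, Finset.mul_sum]
          refine Finset.sum_congr rfl fun t _ => ?_
          ring
  have h2 : Z ^ 2 ≤ (∑ n ∈ S, ‖a n‖ ^ 2) * ∑ n ∈ S, ‖B n‖ ^ 2 := by
    have e : Z ≤ ∑ n ∈ S, ‖a n‖ * ‖B n‖ := by
      calc Z = ‖(Z : ℂ)‖ := by rw [Complex.norm_real, Real.norm_of_nonneg hZ0]
        _ = ‖∑ n ∈ S, a n * B n‖ := by rw [h1]
        _ ≤ ∑ n ∈ S, ‖a n * B n‖ := norm_sum_le _ _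
        _ = _ := by simp only [norm_mul]
    calc Z ^ 2 ≤ (∑ n ∈ S, ‖a n‖ * ‖B n‖) ^ 2 := pow_le_pow_left₀ hZ0 e 2
      _ ≤ _ := Finset.sum_mul_sq_le_sq_mul_sq _ _ _
  have h3 : ∑ n ∈ S, ‖B n‖ ^ 2 ≤ ∑ n ∈ S', g n * ‖B n‖ ^ 2 := by
    calc ∑ n ∈ S, ‖B n‖ ^ 2 ≤ ∑ n ∈ S, g n * ‖B n‖ ^ 2 := by
          refine Finset.sum_le_sum fun n hn => ?_
          nlinarith [hg1 n hn, sq_nonneg ‖B n‖]
      _ ≤ _ := Finset.sum_le_sum_of_subset_of_nonneg hS fun n hn _ => mul_nonneg (hg0 n hn) (sq_nonneg _)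
  have h4 : ∑ n ∈ S', g n * ‖B n‖ ^ 2 ≤ M * Z := by
    have e1 : ((∑ n ∈ S', g n * ‖B n‖ ^ 2 : ℝ) : ℂ) =
        ∑ t ∈ U, ∑ t' ∈ U, (starRingEnd ℂ) (Dp S a t) * Dp S a t' * Gk S' g (t' - t) := by
      push_cast
      have : ∀ n, ((‖B n‖ : ℂ)) ^ 2 = ∑ t ∈ U, ∑ t' ∈ U,
          (starRingEnd ℂ) (Dp S a t) * Dp S a t' * E ((t' - t) * Real.log n) := by
        intro n
        have e : ((‖B n‖ : ℂ)) ^ 2 = B n * (starRingEnd ℂ) (B n) := by
          rw [Complex.mul_conj, Complex.normSq_eq_norm_sq]; push_cast; rfl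
        rw [e, hB, map_sum, Finset.sum_mul_sum]
        refine Finset.sum_congr rfl fun t _ => Finset.sum_congr rfl fun t' _ => ?_
        rw [map_mul, Complex.conj_conj, ← E_neg, neg_neg]
        rw [show (t' - t) * Real.log n = -(t * Real.log n) + t' * Real.log n by ring, E_add]
        ring
      calc ∑ n ∈ S', (g n : ℂ) * ((‖B n‖ : ℂ)) ^ 2 =
          ∑ n ∈ S', ∑ t ∈ U, ∑ t' ∈ U, (starRingEnd ℂ) (Dp S a t) * Dp S a t' *
            ((g n : ℂ) * E ((t' - t) * Real.log n)) := by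
            refine Finset.sum_congr rfl fun n _ => ?_
            rw [this n, Finset.mul_sum]
            refine Finset.sum_congr rfl fun t _ => ?_
            rw [Finset.mul_sum]
            refine Finset.sum_congr rfl fun t' _ => ?_
            ring
        _ = ∑ t ∈ U, ∑ t' ∈ U, ∑ n ∈ S', (starRingEnd ℂ) (Dp S a t) * Dp S a t' *
            ((g n : ℂ) * E ((t' - t) * Real.log n)) := by
            rw [Finset.sum_comm]
            refine Finset.sum_congr rfl fun t _ => ?_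
            rw [Finset.sum_comm]
        _ = _ := by
            refine Finset.sum_congr rfl fun t _ => Finset.sum_congr rfl fun t' _ => ?_
            rw [← Finset.mul_sum]; rfl
    have hnn : 0 ≤ ∑ n ∈ S', g n * ‖B n‖ ^ 2 :=
      Finset.sum_nonneg fun n hn => mul_nonneg (hg0 n hn) (sq_nonneg _)
    have e2 : ∑ n ∈ S', g n * ‖B n‖ ^ 2 ≤
        ∑ t ∈ U, ∑ t' ∈ U, ‖Dp S a t‖ * ‖Dp S a t'‖ * ‖Gk S' g (t' - t)‖ := by
      calc ∑ n ∈ S', g n * ‖B n‖ ^ 2 = ‖((∑ n ∈ S', g n * ‖B n‖ ^ 2 : ℝ) : ℂ)‖ := by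
            rw [Complex.norm_real, Real.norm_of_nonneg hnn]
        _ = ‖∑ t ∈ U, ∑ t' ∈ U, (starRingEnd ℂ) (Dp S a t) * Dp S a t' * Gk S' g (t' - t)‖ := by rw [e1]
        _ ≤ ∑ t ∈ U, ‖∑ t' ∈ U, (starRingEnd ℂ) (Dp S a t) * Dp S a t' * Gk S' g (t' - t)‖ := norm_sum_le _ _
        _ ≤ ∑ t ∈ U, ∑ t' ∈ U, ‖(starRingEnd ℂ) (Dp S a t) * Dp S a t' * Gk S' g (t' - t)‖ :=
            Finset.sum_le_sum fun _ _ => norm_sum_le _ _
        _ = _ := by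
            refine Finset.sum_congr rfl fun t _ => Finset.sum_congr rfl fun t' _ => ?_
            rw [norm_mul, norm_mul, RCLike.norm_conj]
    have e3 : ∑ t ∈ U, ∑ t' ∈ U, ‖Dp S a t‖ * ‖Dp S a t'‖ * ‖Gk S' g (t' - t)‖ ≤
        ∑ t ∈ U, ∑ t' ∈ U, (‖Dp S a t‖ ^ 2 * ‖Gk S' g (t' - t)‖ / 2 + ‖Dp S a t'‖ ^ 2 * ‖Gk S' g (t' - t)‖ / 2) := by
      refine Finset.sum_le_sum fun t _ => Finset.sum_le_sum fun t' _ => ?_
      have h : ‖Dp S a t‖ * ‖Dp S a t'‖ ≤ ‖Dp S a t‖ ^ 2 / 2 + ‖Dp S a t'‖ ^ 2 / 2 := by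
        nlinarith [sq_nonneg (‖Dp S a t‖ - ‖Dp S a t'‖)]
      calc ‖Dp S a t‖ * ‖Dp S a t'‖ * ‖Gk S' g (t' - t)‖ ≤
          (‖Dp S a t‖ ^ 2 / 2 + ‖Dp S a t'‖ ^ 2 / 2) * ‖Gk S' g (t' - t)‖ :=
            mul_le_mul_of_nonneg_right h (norm_nonneg _)
        _ = _ := by ring
    have e4 : ∑ t ∈ U, ∑ t' ∈ U, ‖Dp S a t‖ ^ 2 * ‖Gk S' g (t' - t)‖ / 2 ≤ M * Z / 2 := by
      calc ∑ t ∈ U, ∑ t' ∈ U, ‖Dp S a t‖ ^ 2 * ‖Gk S' g (t' - t)‖ / 2 =
          ∑ t ∈ U, ‖Dp S a t‖ ^ 2 / 2 * ∑ t' ∈ U, ‖Gk S' g (t' - t)‖ := by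
            refine Finset.sum_congr rfl fun t _ => ?_
            rw [Finset.mul_sum]
            exact Finset.sum_congr rfl fun t' _ => by ring
        _ ≤ ∑ t ∈ U, ‖Dp S a t‖ ^ 2 / 2 * M :=
            Finset.sum_le_sum fun t ht => mul_le_mul_of_nonneg_left (hM t ht) (by positivity)
        _ = M * Z / 2 := by
            rw [← Finset.sum_mul, ← Finset.sum_div, ← hZ]; ring
    have e5 : ∑ t ∈ U, ∑ t' ∈ U, ‖Dp S a t'‖ ^ 2 * ‖Gk S' g (t' - t)‖ / 2 ≤ M * Z / 2 := by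
      rw [Finset.sum_comm]
      calc ∑ t' ∈ U, ∑ t ∈ U, ‖Dp S a t'‖ ^ 2 * ‖Gk S' g (t' - t)‖ / 2 =
          ∑ t' ∈ U, ‖Dp S a t'‖ ^ 2 / 2 * ∑ t ∈ U, ‖Gk S' g (t - t')‖ := by
            refine Finset.sum_congr rfl fun t' _ => ?_
            rw [Finset.mul_sum]
            refine Finset.sum_congr rfl fun t _ => ?_
            rw [← Gk_neg S' g (t' - t), neg_sub]; ring
        _ ≤ ∑ t' ∈ U, ‖Dp S a t'‖ ^ 2 / 2 * M :=
            Finset.sum_le_sum fun t ht => mul_le_mul_of_nonneg_left (hM t ht) (by positivity)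
        _ = M * Z / 2 := by
            rw [← Finset.sum_mul, ← Finset.sum_div, ← hZ]; ring
    calc ∑ n ∈ S', g n * ‖B n‖ ^ 2 ≤ _ := e2
      _ ≤ _ := e3
      _ = ∑ t ∈ U, ∑ t' ∈ U, ‖Dp S a t‖ ^ 2 * ‖Gk S' g (t' - t)‖ / 2 +
          ∑ t ∈ U, ∑ t' ∈ U, ‖Dp S a t'‖ ^ 2 * ‖Gk S' g (t' - t)‖ / 2 := by
          rw [← Finset.sum_add_distrib]
          refine Finset.sum_congr rfl fun t _ => ?_
          rw [← Finset.sum_add_distrib]
      _ ≤ M * Z / 2 + M * Z / 2 := add_le_add e4 e5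
      _ = M * Z := by ring
  have hA0 : 0 ≤ ∑ n ∈ S, ‖a n‖ ^ 2 := Finset.sum_nonneg fun _ _ => sq_nonneg _
  have h5 : Z ^ 2 ≤ (∑ n ∈ S, ‖a n‖ ^ 2) * (M * Z) :=
    h2.trans (mul_le_mul_of_nonneg_left (h3.trans h4) hA0)
  rcases hZ0.eq_or_lt with h | h
  · rw [← h]
    exact mul_nonneg hM0 hA0
  · have : Z * Z ≤ (M * ∑ n ∈ S, ‖a n‖ ^ 2) * Z := by nlinarith
    exact le_of_mul_le_mul_right this h

theorem sum_inv_sq_le (K : ℕ) : ∑ k ∈ Icc 1 K, 1 / (k : ℝ) ^ 2 ≤ 2 := by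
  have h : ∀ K : ℕ, 1 ≤ K → ∑ k ∈ Icc 1 K, 1 / (k : ℝ) ^ 2 ≤ 2 - 1 / (K : ℝ) := by
    intro K hK
    induction K, hK using Nat.le_induction with
    | base => norm_num
    | succ K hK ih =>
      rw [Finset.sum_Icc_succ_top (by omega)]
      have hK0 : (0 : ℝ) < K := by exact_mod_cast hK
      have h1 : 1 / ((K + 1 : ℕ) : ℝ) ^ 2 ≤ 1 / K - 1 / ((K + 1 : ℕ) : ℝ) := by
        push_cast
        rw [div_sub_div _ _ hK0.ne' (by positivity), div_le_div_iff₀ (by positivity) (by positivity)]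
        nlinarith
      linarith
  rcases Nat.eq_zero_or_pos K with hK | hK
  · subst hK; norm_num
  · have := h K hK
    have h2 : 0 ≤ 1 / (K : ℝ) := by positivity
    linarith

/-- `1`-spaced sets of reals `≥ 1` -/
theorem sep_sum {V : Finset ℝ} (h1 : ∀ v ∈ V, 1 ≤ v) (hs : ∀ v ∈ V, ∀ w ∈ V, v ≠ w → 1 ≤ |v - w|) :
    ∑ v ∈ V, 1 / v ^ 2 ≤ 2 := by
  have hinj : Set.InjOn (fun v : ℝ => ⌊v⌋₊) (V : Set ℝ) := by
    intro v hv w hw hvw
    by_contra hne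
    have h := hs v hv w hw hne
    have a1 := Nat.floor_le (by linarith [h1 v hv] : 0 ≤ v)
    have a2 := Nat.lt_floor_add_one v
    have b1 := Nat.floor_le (by linarith [h1 w hw] : 0 ≤ w)
    have b2 := Nat.lt_floor_add_one w
    simp only at hvw
    rw [hvw] at a1 a2
    have : |v - w| < 1 := by rw [abs_lt]; constructor <;> linarith
    linarith
  have hle : ∀ v ∈ V, 1 / v ^ 2 ≤ 1 / ((⌊v⌋₊ : ℕ) : ℝ) ^ 2 := by
    intro v hv
    have h := h1 v hv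
    have a1 := Nat.floor_le (by linarith : 0 ≤ v)
    have a3 : (1 : ℝ) ≤ (⌊v⌋₊ : ℕ) := by exact_mod_cast (Nat.one_le_floor_iff v).2 h
    apply one_div_le_one_div_of_le (by positivity)
    nlinarith
  calc ∑ v ∈ V, 1 / v ^ 2 ≤ ∑ v ∈ V, 1 / ((⌊v⌋₊ : ℕ) : ℝ) ^ 2 := Finset.sum_le_sum hle
    _ = ∑ k ∈ V.image (fun v : ℝ => ⌊v⌋₊), 1 / (k : ℝ) ^ 2 := by rw [Finset.sum_image hinj]
    _ ≤ ∑ k ∈ Icc 1 ((V.image (fun v : ℝ => ⌊v⌋₊)).sup id), 1 / (k : ℝ) ^ 2 := by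
        refine Finset.sum_le_sum_of_subset_of_nonneg ?_ fun _ _ _ => by positivity
        intro k hk
        rw [mem_Icc]
        refine ⟨?_, Finset.le_sup (f := id) hk⟩
        rw [mem_image] at hk
        obtain ⟨v, hv, rfl⟩ := hk
        exact (Nat.one_le_floor_iff v).2 (h1 v hv)
    _ ≤ 2 := sum_inv_sq_le _

theorem sep_card {V : Finset ℝ} (h1 : ∀ v ∈ V, 1 ≤ v) (hs : ∀ v ∈ V, ∀ w ∈ V, v ≠ w → 1 ≤ |v - w|)
    {R : ℝ} (hR : 0 ≤ R) (hV : ∀ v ∈ V, v ≤ R) : (V.card : ℝ) ≤ R := by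
  have hinj : Set.InjOn (fun v : ℝ => ⌊v⌋₊) (V : Set ℝ) := by
    intro v hv w hw hvw
    by_contra hne
    have h := hs v hv w hw hne
    have a1 := Nat.floor_le (by linarith [h1 v hv] : 0 ≤ v)
    have a2 := Nat.lt_floor_add_one v
    have b1 := Nat.floor_le (by linarith [h1 w hw] : 0 ≤ w)
    have b2 := Nat.lt_floor_add_one w
    simp only at hvw
    rw [hvw] at a1 a2
    have : |v - w| < 1 := by rw [abs_lt]; constructor <;> linarith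
    linarith
  have hsub : V.image (fun v : ℝ => ⌊v⌋₊) ⊆ Icc 1 ⌊R⌋₊ := by
    intro k hk
    rw [mem_image] at hk
    obtain ⟨v, hv, rfl⟩ := hk
    rw [mem_Icc]
    exact ⟨(Nat.one_le_floor_iff v).2 (h1 v hv), Nat.floor_le_floor (hV v hv)⟩
  have hc := Finset.card_le_card hsub
  rw [Finset.card_image_of_injOn hinj, Nat.card_Icc] at hc
  have hf := Nat.floor_le hR
  have : (V.card : ℝ) ≤ (⌊R⌋₊ : ℝ) := by exact_mod_cast (by omega : V.card ≤ ⌊R⌋₊)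
  linarith

/-- two-sided version for a `1`-spaced set seen from one of its points -/
theorem spaced_sum {U : Finset ℝ} (hs : ∀ v ∈ U, ∀ w ∈ U, v ≠ w → 1 ≤ |v - w|) {t : ℝ} (ht : t ∈ U)
    {N R : ℝ} (hN : 0 ≤ N) (hR : 0 ≤ R) :
    ∑ v ∈ U.filter (fun v => v ≠ t ∧ |v - t| ≤ R), (N / |v - t| ^ 2 + |v - t|) ≤ 4 * N + 2 * R ^ 2 := by
  classical
  set Up := U.filter (fun v => t < v ∧ |v - t| ≤ R) with hUp
  set Um := U.filter (fun v => v < t ∧ |v - t| ≤ R) with hUm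
  have hsplit : U.filter (fun v => v ≠ t ∧ |v - t| ≤ R) = Up ∪ Um := by
    ext v
    simp only [hUp, hUm, mem_union, mem_filter]
    constructor
    · rintro ⟨a, b, c⟩
      rcases lt_or_gt_of_ne b with h | h
      · exact Or.inr ⟨a, h, c⟩
      · exact Or.inl ⟨a, h, c⟩
    · rintro (⟨a, b, c⟩ | ⟨a, b, c⟩)
      · exact ⟨a, b.ne', c⟩
      · exact ⟨a, b.ne, c⟩
  have hdisj : Disjoint Up Um := by
    rw [Finset.disjoint_left]
    intro v h1 h2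
    rw [hUp, mem_filter] at h1
    rw [hUm, mem_filter] at h2
    linarith [h1.2.1, h2.2.1]
  have key : ∀ (W : Finset ℝ) (sg : ℝ), (sg = 1 ∨ sg = -1) → (∀ v ∈ W, v ∈ U ∧ 0 < sg * (v - t) ∧ |v - t| ≤ R) →
      ∑ v ∈ W, (N / |v - t| ^ 2 + |v - t|) ≤ 2 * N + R ^ 2 := by
    intro W sg hsg hW
    have habs : ∀ v ∈ W, |v - t| = sg * (v - t) := by
      intro v hv
      have := (hW v hv).2.1
      rcases hsg with h | h
      · rw [h] at this ⊢; rw [abs_of_pos (by linarith)]; ring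
      · rw [h] at this ⊢; rw [abs_of_neg (by linarith)]; ring
    set f : ℝ → ℝ := fun v => sg * (v - t) with hf
    have hsg0 : sg ≠ 0 := by rcases hsg with h | h <;> rw [h] <;> norm_num
    have hinj : Set.InjOn f (W : Set ℝ) := by
      intro v _ w _ hvw
      simp only [hf] at hvw
      have := mul_left_cancel₀ hsg0 hvw
      linarith
    have hV1 : ∀ x ∈ W.image f, 1 ≤ x := by
      intro x hx
      rw [mem_image] at hx
      obtain ⟨v, hv, rfl⟩ := hx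
      have h1 := hs v (hW v hv).1 t ht (by
        intro h
        have := (hW v hv).2.1
        rw [h] at this; simp at this)
      rw [habs v hv] at h1
      exact h1
    have hVs : ∀ x ∈ W.image f, ∀ y ∈ W.image f, x ≠ y → 1 ≤ |x - y| := by
      intro x hx y hy hne
      rw [mem_image] at hx hy
      obtain ⟨v, hv, rfl⟩ := hx
      obtain ⟨w, hw, rfl⟩ := hy
      have h1 := hs v (hW v hv).1 w (hW w hw).1 (fun h => hne (by rw [h]))
      have e : f v - f w = sg * (v - w) := by simp only [hf]; ring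
      rw [e, abs_mul]
      have : |sg| = 1 := by rcases hsg with h | h <;> rw [h] <;> norm_num
      rw [this, one_mul]
      exact h1
    have hVR : ∀ x ∈ W.image f, x ≤ R := by
      intro x hx
      rw [mem_image] at hx
      obtain ⟨v, hv, rfl⟩ := hx
      have := (hW v hv).2.2
      rw [habs v hv] at this
      exact this
    have s1 := sep_sum hV1 hVs
    have s2 := sep_card hV1 hVs hR hVR
    rw [Finset.card_image_of_injOn hinj] at s2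
    rw [Finset.sum_image hinj] at s1
    have e1 : ∑ v ∈ W, (N / |v - t| ^ 2 + |v - t|) ≤ ∑ v ∈ W, (N * (1 / f v ^ 2) + R) := by
      refine Finset.sum_le_sum fun v hv => ?_
      rw [habs v hv]
      have := (hW v hv).2.2
      rw [habs v hv] at this
      have e2 : N / (sg * (v - t)) ^ 2 = N * (1 / f v ^ 2) := by simp only [hf]; ring
      rw [e2]
      linarith
    refine e1.trans ?_
    rw [Finset.sum_add_distrib, ← Finset.mul_sum, Finset.sum_const, nsmul_eq_mul]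
    have a1 : N * ∑ v ∈ W, 1 / f v ^ 2 ≤ N * 2 := mul_le_mul_of_nonneg_left s1 hN
    have a2 : (W.card : ℝ) * R ≤ R * R := mul_le_mul_of_nonneg_right s2 hR
    nlinarith
  rw [hsplit, Finset.sum_union hdisj]
  have k1 := key Up 1 (Or.inl rfl) (fun v hv => by
    rw [hUp, mem_filter] at hv
    exact ⟨hv.1, by linarith [hv.2.1], hv.2.2⟩)
  have k2 := key Um (-1) (Or.inr rfl) (fun v hv => by
    rw [hUm, mem_filter] at hv
    exact ⟨hv.1, by linarith [hv.2.1], hv.2.2⟩)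
  linarith

/-- **Sparse mean value**, abstract form: `‖G 0‖ ≤ C N`, `‖G u‖ ≤ C (N/u² + |u|)` for `1 ≤ |u| ≤ R`, `R² ≤ N`, and
`‖G u‖ ≤ B` for `R < |u|` (`u` a difference of two points of `U`), `#U B ≤ C N`. -/
theorem sparse_of {S S' : Finset ℕ} {U : Finset ℝ} (hS : S ⊆ S') {a : ℕ → ℂ} {g : ℕ → ℝ}
    (hg0 : ∀ n ∈ S', 0 ≤ g n) (hg1 : ∀ n ∈ S, 1 ≤ g n)
    (hs : ∀ v ∈ U, ∀ w ∈ U, v ≠ w → 1 ≤ |v - w|) {N R B C : ℝ} (hN : 0 ≤ N) (hC : 0 ≤ C) (hR : 0 ≤ R)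
    (hB : 0 ≤ B) (hRN : R ^ 2 ≤ N) (h0 : ‖Gk S' g 0‖ ≤ C * N)
    (h1 : ∀ u : ℝ, 1 ≤ |u| → |u| ≤ R → ‖Gk S' g u‖ ≤ C * (N / |u| ^ 2 + |u|))
    (h2 : ∀ v ∈ U, ∀ w ∈ U, R < |v - w| → ‖Gk S' g (v - w)‖ ≤ B) (hUB : U.card * B ≤ C * N) :
    ∑ t ∈ U, ‖Dp S a t‖ ^ 2 ≤ 8 * C * N * ∑ n ∈ S, ‖a n‖ ^ 2 := by
  classical
  refine duality hS hg0 hg1 (by positivity) fun t ht => ?_
  have e1 : ∑ v ∈ U, ‖Gk S' g (v - t)‖ = ∑ v ∈ U.filter (fun v => v = t), ‖Gk S' g (v - t)‖ +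
      (∑ v ∈ U.filter (fun v => v ≠ t ∧ |v - t| ≤ R), ‖Gk S' g (v - t)‖ +
        ∑ v ∈ U.filter (fun v => v ≠ t ∧ ¬ |v - t| ≤ R), ‖Gk S' g (v - t)‖) := by
    rw [← Finset.sum_filter_add_sum_filter_not U (fun v => v = t)]
    congr 1
    rw [← Finset.sum_filter_add_sum_filter_not (U.filter (fun v => ¬ v = t)) (fun v => |v - t| ≤ R),
      Finset.filter_filter, Finset.filter_filter]
  have e2 : ∑ v ∈ U.filter (fun v => v = t), ‖Gk S' g (v - t)‖ ≤ C * N := by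
    rw [Finset.filter_eq' U t, if_pos ht, Finset.sum_singleton, sub_self]
    exact h0
  have e3 : ∑ v ∈ U.filter (fun v => v ≠ t ∧ |v - t| ≤ R), ‖Gk S' g (v - t)‖ ≤ C * (4 * N + 2 * R ^ 2) := by
    calc ∑ v ∈ U.filter (fun v => v ≠ t ∧ |v - t| ≤ R), ‖Gk S' g (v - t)‖ ≤
        ∑ v ∈ U.filter (fun v => v ≠ t ∧ |v - t| ≤ R), C * (N / |v - t| ^ 2 + |v - t|) := by
          refine Finset.sum_le_sum fun v hv => ?_
          rw [mem_filter] at hv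
          exact h1 _ (hs v hv.1 t ht hv.2.1) hv.2.2
      _ = C * ∑ v ∈ U.filter (fun v => v ≠ t ∧ |v - t| ≤ R), (N / |v - t| ^ 2 + |v - t|) := by
          rw [Finset.mul_sum]
      _ ≤ _ := mul_le_mul_of_nonneg_left (spaced_sum hs ht hN hR) hC
  have e4 : ∑ v ∈ U.filter (fun v => v ≠ t ∧ ¬ |v - t| ≤ R), ‖Gk S' g (v - t)‖ ≤ C * N := by
    calc ∑ v ∈ U.filter (fun v => v ≠ t ∧ ¬ |v - t| ≤ R), ‖Gk S' g (v - t)‖ ≤
        ∑ v ∈ U.filter (fun v => v ≠ t ∧ ¬ |v - t| ≤ R), B := by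
          refine Finset.sum_le_sum fun v hv => ?_
          rw [mem_filter] at hv
          exact h2 v hv.1 t ht (not_le.1 hv.2.2)
      _ = (U.filter (fun v => v ≠ t ∧ ¬ |v - t| ≤ R)).card * B := by rw [Finset.sum_const, nsmul_eq_mul]
      _ ≤ U.card * B := by
          refine mul_le_mul_of_nonneg_right ?_ hB
          exact_mod_cast Finset.card_le_card (Finset.filter_subset _ _)
      _ ≤ C * N := hUB
  rw [e1]
  have : C * (4 * N + 2 * R ^ 2) ≤ C * (6 * N) := mul_le_mul_of_nonneg_left (by linarith) hC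
  linarith

end Pool.Agent.LO
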