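import Mathlib

/-!
# Uniform Turan-Kubilius inequality in intervals

`om PP n` is the number of elements of `PP` dividing `n`, `rl PP = ∑ p ∈ PP, 1/p`.
-/

namespace Pool.Agent.LO

open Finset

/-- number of elements of `PP` dividing `n` -/
def om (PP : Finset ℕ) (n : ℕ) : ℕ := (PP.filter (fun p => p ∣ n)).card

/-- `∑ p ∈ PP, 1/p` -/
noncomputable def rl (PP : Finset ℕ) : ℝ := ∑ p ∈ PP, (1 : ℝ) / p

theorem rl_nonneg (PP : Finset ℕ) : 0 ≤ rl PP := by
  unfold rl
  positivity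

theorem two_rl_le {PP : Finset ℕ} (hPP : ∀ p ∈ PP, p.Prime) : 2 * rl PP ≤ PP.card := by
  unfold rl
  rw [Finset.mul_sum, Finset.card_eq_sum_ones]
  push_cast
  apply Finset.sum_le_sum
  intro p hp
  have h2 : (2 : ℝ) ≤ p := by exact_mod_cast (hPP p hp).two_le
  rw [mul_one_div, div_le_one (by linarith)]
  exact h2

theorem card_mult {a b p : ℕ} (hab : a ≤ b) :
    ((Ioc a b).filter (fun n => p ∣ n)).card + a / p = b / p := by
  have h1 : (Ioc 0 b).filter (fun n => p ∣ n)
      = (Ioc 0 a).filter (fun n => p ∣ n) ∪ (Ioc a b).filter (fun n => p ∣ n) := by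
    rw [← filter_union, Ioc_union_Ioc_eq_Ioc (Nat.zero_le a) hab]
  have h2 : Disjoint ((Ioc 0 a).filter (fun n => p ∣ n)) ((Ioc a b).filter (fun n => p ∣ n)) := by
    apply Finset.disjoint_filter_filter
    rw [Finset.disjoint_left]
    intro x hx hx'
    rw [mem_Ioc] at hx hx'
    omega
  have h3 := congrArg Finset.card h1
  rw [card_union_of_disjoint h2, Nat.Ioc_filter_dvd_card_eq_div,
    Nat.Ioc_filter_dvd_card_eq_div] at h3
  omega

theorem card_mult_le {a b p : ℕ} (hab : a ≤ b) (hp : 0 < p) :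
    (((Ioc a b).filter (fun n => p ∣ n)).card : ℝ) ≤ ((b : ℝ) - a) / p + 1 := by
  have h := card_mult (p := p) hab
  have h1 : ((b / p : ℕ) : ℝ) ≤ (b : ℝ) / p := Nat.cast_div_le
  have h2 : (a : ℝ) / p ≤ ((a / p : ℕ) : ℝ) + 1 := by
    have := Nat.lt_div_mul_add (a := a) hp
    rw [div_le_iff₀ (by exact_mod_cast hp)]
    have h3 : a ≤ (a / p + 1) * p := by
      rw [add_mul, one_mul]
      exact this.le
    exact_mod_cast h3
  have h4 : (((Ioc a b).filter (fun n => p ∣ n)).card : ℝ) + ((a / p : ℕ) : ℝ)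
      = ((b / p : ℕ) : ℝ) := by exact_mod_cast h
  rw [sub_div]
  linarith

theorem card_mult_ge {a b p : ℕ} (hab : a ≤ b) (hp : 0 < p) :
    ((b : ℝ) - a) / p - 1 ≤ (((Ioc a b).filter (fun n => p ∣ n)).card : ℝ) := by
  have h := card_mult (p := p) hab
  have h1 : ((a / p : ℕ) : ℝ) ≤ (a : ℝ) / p := Nat.cast_div_le
  have h2 : (b : ℝ) / p ≤ ((b / p : ℕ) : ℝ) + 1 := by
    have := Nat.lt_div_mul_add (a := b) hp
    rw [div_le_iff₀ (by exact_mod_cast hp)]
    have h3 : b ≤ (b / p + 1) * p := by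
      rw [add_mul, one_mul]
      exact this.le
    exact_mod_cast h3
  have h4 : (((Ioc a b).filter (fun n => p ∣ n)).card : ℝ) + ((a / p : ℕ) : ℝ)
      = ((b / p : ℕ) : ℝ) := by exact_mod_cast h
  rw [sub_div]
  linarith

theorem om_eq (PP : Finset ℕ) (n : ℕ) : (om PP n : ℝ) = ∑ p ∈ PP, if p ∣ n then (1 : ℝ) else 0 := by
  unfold om
  rw [Finset.card_filter]
  push_cast
  rfl

theorem sum_om_ge {PP : Finset ℕ} (hPP : ∀ p ∈ PP, p.Prime) {a b : ℕ} (hab : a ≤ b) :
    ((b : ℝ) - a) * rl PP - PP.card ≤ ∑ n ∈ Ioc a b, (om PP n : ℝ) := by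
  simp_rw [om_eq]
  rw [Finset.sum_comm]
  have h1 : ((b : ℝ) - a) * rl PP - PP.card = ∑ p ∈ PP, (((b : ℝ) - a) / p - 1) := by
    unfold rl
    rw [Finset.sum_sub_distrib, Finset.mul_sum, Finset.card_eq_sum_ones]
    push_cast
    congr 1
    exact Finset.sum_congr rfl fun p _ => by ring
  rw [h1]
  apply Finset.sum_le_sum
  intro p hp
  refine (card_mult_ge hab (hPP p hp).pos).trans (le_of_eq ?_)
  rw [Finset.card_filter]
  push_cast
  rfl

theorem sum_om_sq_le {PP : Finset ℕ} (hPP : ∀ p ∈ PP, p.Prime) {a b : ℕ} (hab : a ≤ b) :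
    ∑ n ∈ Ioc a b, (om PP n : ℝ) ^ 2
      ≤ ((b : ℝ) - a) * (rl PP + rl PP ^ 2) + (PP.card : ℝ) ^ 2 := by
  classical
  have hab' : (0 : ℝ) ≤ (b : ℝ) - a := by
    have : (a : ℝ) ≤ b := by exact_mod_cast hab
    linarith
  simp_rw [om_eq, sq, Finset.sum_mul_sum]
  rw [Finset.sum_comm]
  have hin : ∀ p ∈ PP, ∑ n ∈ Ioc a b, ∑ q ∈ PP, ((if p ∣ n then (1 : ℝ) else 0) *
      (if q ∣ n then (1 : ℝ) else 0)) ≤ ∑ q ∈ PP, ((if q = p then ((b : ℝ) - a) / p else 0)
        + ((b : ℝ) - a) * (1 / p * (1 / q)) + 1) := by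
    intro p hp
    rw [Finset.sum_comm]
    apply Finset.sum_le_sum
    intro q hq
    have hpp := hPP p hp
    have hqq := hPP q hq
    have hp0 : (0 : ℝ) < p := by exact_mod_cast hpp.pos
    have hq0 : (0 : ℝ) < q := by exact_mod_cast hqq.pos
    split_ifs with hqp
    · subst hqp
      have h1 : ∑ n ∈ Ioc a b, ((if q ∣ n then (1 : ℝ) else 0) * (if q ∣ n then (1 : ℝ) else 0))
          = (((Ioc a b).filter (fun n => q ∣ n)).card : ℝ) := by
        rw [Finset.card_filter]
        push_cast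
        exact Finset.sum_congr rfl fun n _ => by split_ifs <;> simp
      rw [h1]
      have h2 := card_mult_le hab hqq.pos
      have h3 : 0 ≤ ((b : ℝ) - a) * (1 / q * (1 / q)) := by positivity
      linarith
    · have h1 : ∑ n ∈ Ioc a b, ((if p ∣ n then (1 : ℝ) else 0) * (if q ∣ n then (1 : ℝ) else 0))
          = (((Ioc a b).filter (fun n => p * q ∣ n)).card : ℝ) := by
        rw [Finset.card_filter]
        push_cast
        refine Finset.sum_congr rfl fun n _ => ?_
        have hcop : Nat.Coprime p q := (Nat.coprime_primes hpp hqq).mpr (Ne.symm hqp)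
        by_cases h : p ∣ n
        · by_cases h' : q ∣ n
          · rw [if_pos h, if_pos h', if_pos (hcop.mul_dvd_of_dvd_of_dvd h h')]
            simp
          · rw [if_pos h, if_neg h', if_neg (fun h'' => h' ((Dvd.intro_left _ rfl).trans h''))]
            simp
        · rw [if_neg h, if_neg (fun h'' => h ((Dvd.intro _ rfl).trans h''))]
          simp
      rw [h1]
      have h2 := card_mult_le hab (Nat.mul_pos hpp.pos hqq.pos)
      have h3 : ((b : ℝ) - a) / ((p * q : ℕ) : ℝ) = ((b : ℝ) - a) * (1 / p * (1 / q)) := by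
        push_cast
        field_simp
      rw [h3] at h2
      linarith
  refine (Finset.sum_le_sum hin).trans (le_of_eq ?_)
  simp_rw [Finset.sum_add_distrib]
  have e1 : ∑ p ∈ PP, ∑ q ∈ PP, (if q = p then ((b : ℝ) - a) / p else 0)
      = ((b : ℝ) - a) * rl PP := by
    unfold rl
    rw [Finset.mul_sum]
    refine Finset.sum_congr rfl fun p hp => ?_
    rw [Finset.sum_ite_eq' PP p, if_pos hp]
    ring
  have e2 : ∑ p ∈ PP, ∑ q ∈ PP, ((b : ℝ) - a) * (1 / (p : ℝ) * (1 / q))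
      = ((b : ℝ) - a) * rl PP ^ 2 := by
    unfold rl
    rw [sq, Finset.sum_mul_sum, Finset.mul_sum]
    exact Finset.sum_congr rfl fun p _ => by rw [Finset.mul_sum]
  rw [e1, e2]
  simp only [sum_const, nsmul_eq_mul, mul_one]
  ring

/-- uniform Turan-Kubilius inequality in intervals -/
theorem tk {PP : Finset ℕ} (hPP : ∀ p ∈ PP, p.Prime) {a b : ℕ} (hab : a ≤ b) :
    ∑ n ∈ Ioc a b, ((om PP n : ℝ) - rl PP) ^ 2
      ≤ ((b : ℝ) - a) * rl PP + 2 * (PP.card : ℝ) ^ 2 := by
  have h1 := sum_om_sq_le hPP hab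
  have h2 := sum_om_ge hPP hab
  have h3 : ∑ n ∈ Ioc a b, ((om PP n : ℝ) - rl PP) ^ 2
      = ∑ n ∈ Ioc a b, (om PP n : ℝ) ^ 2 - 2 * rl PP * ∑ n ∈ Ioc a b, (om PP n : ℝ)
        + ((b : ℝ) - a) * rl PP ^ 2 := by
    have : ((b : ℝ) - a) * rl PP ^ 2 = ∑ n ∈ Ioc a b, rl PP ^ 2 := by
      rw [sum_const, Nat.card_Ioc, nsmul_eq_mul, Nat.cast_sub hab]
    rw [this, Finset.mul_sum, ← Finset.sum_sub_distrib, ← Finset.sum_add_distrib]
    exact Finset.sum_congr rfl fun n _ => by ring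
  have h4 := two_rl_le hPP
  have h5 := rl_nonneg PP
  have h6 : 2 * rl PP * (((b : ℝ) - a) * rl PP - PP.card)
      ≤ 2 * rl PP * ∑ n ∈ Ioc a b, (om PP n : ℝ) :=
    mul_le_mul_of_nonneg_left h2 (by linarith)
  have h7 : 2 * rl PP * PP.card ≤ (PP.card : ℝ) ^ 2 := by
    rw [sq]
    exact mul_le_mul_of_nonneg_right h4 (Nat.cast_nonneg _)
  rw [h3]
  nlinarith

/-- second moment of the number of `p ∈ PP` with `p ^ 2 ∣ n` -/
theorem sum_sq_sq_le {PP : Finset ℕ} (hPP : ∀ p ∈ PP, p.Prime) {P : ℝ} (hP : 1 ≤ P)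
    (hPle : ∀ p ∈ PP, P ≤ p) {a b : ℕ} (hab : a ≤ b) :
    ∑ n ∈ Ioc a b, (((PP.filter (fun p => p ^ 2 ∣ n)).card : ℝ)) ^ 2
      ≤ ((b : ℝ) - a) * (rl PP + rl PP ^ 2) / P + (PP.card : ℝ) ^ 2 := by
  classical
  have hab' : (0 : ℝ) ≤ (b : ℝ) - a := by
    have : (a : ℝ) ≤ b := by exact_mod_cast hab
    linarith
  have hP0 : 0 < P := by linarith
  have hom : ∀ n, (((PP.filter (fun p => p ^ 2 ∣ n)).card : ℝ))
      = ∑ p ∈ PP, if p ^ 2 ∣ n then (1 : ℝ) else 0 := by
    intro n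
    rw [Finset.card_filter]
    push_cast
    rfl
  simp_rw [hom, sq, Finset.sum_mul_sum]
  rw [Finset.sum_comm]
  have hin : ∀ p ∈ PP, ∑ n ∈ Ioc a b, ∑ q ∈ PP, ((if p * p ∣ n then (1 : ℝ) else 0) *
      (if q * q ∣ n then (1 : ℝ) else 0)) ≤ ∑ q ∈ PP, ((if q = p then ((b : ℝ) - a) / p / P else 0)
        + ((b : ℝ) - a) * (1 / p * (1 / q)) / P + 1) := by
    intro p hp
    rw [Finset.sum_comm]
    apply Finset.sum_le_sum
    intro q hq
    have hpp := hPP p hp
    have hqq := hPP q hq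
    have hp0 : (0 : ℝ) < p := by exact_mod_cast hpp.pos
    have hq0 : (0 : ℝ) < q := by exact_mod_cast hqq.pos
    split_ifs with hqp
    · subst hqp
      have h1 : ∑ n ∈ Ioc a b, ((if q * q ∣ n then (1 : ℝ) else 0) *
          (if q * q ∣ n then (1 : ℝ) else 0))
          = (((Ioc a b).filter (fun n => q * q ∣ n)).card : ℝ) := by
        rw [Finset.card_filter]
        push_cast
        exact Finset.sum_congr rfl fun n _ => by split_ifs <;> simp
      rw [h1]
      have h2 := card_mult_le hab (Nat.mul_pos hqq.pos hqq.pos)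
      have h3 : 0 ≤ ((b : ℝ) - a) * (1 / q * (1 / q)) / P := by positivity
      have h4 : ((b : ℝ) - a) / ((q * q : ℕ) : ℝ) ≤ ((b : ℝ) - a) / q / P := by
        push_cast
        rw [div_div]
        exact div_le_div_of_nonneg_left hab' (by positivity)
          (mul_le_mul_of_nonneg_left (hPle q hq) hq0.le)
      linarith
    · have h1 : ∑ n ∈ Ioc a b, ((if p * p ∣ n then (1 : ℝ) else 0) *
          (if q * q ∣ n then (1 : ℝ) else 0))
          ≤ (((Ioc a b).filter (fun n => (p * p) * (q * q) ∣ n)).card : ℝ) := by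
        rw [Finset.card_filter]
        push_cast
        refine Finset.sum_le_sum fun n _ => ?_
        have hcop : Nat.Coprime p q := (Nat.coprime_primes hpp hqq).mpr (Ne.symm hqp)
        have hcop2 : Nat.Coprime (p * p) (q * q) :=
          Nat.Coprime.mul_left (Nat.Coprime.mul_right hcop hcop) (Nat.Coprime.mul_right hcop hcop)
        by_cases h : p * p ∣ n
        · by_cases h' : q * q ∣ n
          · rw [if_pos h, if_pos h', if_pos (hcop2.mul_dvd_of_dvd_of_dvd h h')]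
            simp
          · rw [if_pos h, if_neg h']
            split_ifs <;> simp
        · rw [if_neg h]
          split_ifs <;> simp
      have h2 := card_mult_le hab (Nat.mul_pos (Nat.mul_pos hpp.pos hpp.pos)
        (Nat.mul_pos hqq.pos hqq.pos))
      have hpP : P ≤ (p : ℝ) * q := by
        have e1 := hPle p hp
        have e2 : (1 : ℝ) ≤ q := by exact_mod_cast hqq.one_lt.le
        nlinarith
      have h3 : ((b : ℝ) - a) / ((p * p * (q * q) : ℕ) : ℝ)
          ≤ ((b : ℝ) - a) * (1 / p * (1 / q)) / P := by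
        push_cast
        have e3 : ((b : ℝ) - a) * (1 / p * (1 / q)) / P = ((b : ℝ) - a) / ((p * q) * P) := by
          field_simp
        rw [e3]
        apply div_le_div_of_nonneg_left hab' (by positivity)
        have e4 : (p : ℝ) * p * (q * q) = (p * q) * (p * q) := by ring
        rw [e4]
        exact mul_le_mul_of_nonneg_left hpP (by positivity)
      linarith
  refine (Finset.sum_le_sum hin).trans (le_of_eq ?_)
  simp_rw [Finset.sum_add_distrib]
  have e1 : ∑ p ∈ PP, ∑ q ∈ PP, (if q = p then ((b : ℝ) - a) / p / P else 0)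
      = ((b : ℝ) - a) * rl PP / P := by
    unfold rl
    rw [Finset.mul_sum, Finset.sum_div]
    refine Finset.sum_congr rfl fun p hp => ?_
    rw [Finset.sum_ite_eq' PP p, if_pos hp]
    ring
  have e2 : ∑ p ∈ PP, ∑ q ∈ PP, ((b : ℝ) - a) * (1 / (p : ℝ) * (1 / q)) / P
      = ((b : ℝ) - a) * rl PP ^ 2 / P := by
    unfold rl
    rw [sq, Finset.sum_mul_sum, Finset.mul_sum, Finset.sum_div]
    exact Finset.sum_congr rfl fun p _ => by rw [Finset.mul_sum, Finset.sum_div]
  rw [e1, e2]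
  simp only [sum_const, nsmul_eq_mul, mul_one]
  ring

end Pool.Agent.LO
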